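import Mathlib
import Pool.Agent.Y718.TorFree
import Pool.Agent.TH954.NB

/-!
# Division of points on an elliptic curve over `ℚ_p`
-/

set_option autoImplicit false
set_option linter.unusedSectionVars false

open WeierstrassCurve Pool.Agent.TH954 Pool.Agent.Y718 Filter Topology

namespace Pool.Agent.H68K

section general

variable {L : Type} [NormedField L] [IsUltrametricDist L] [DecidableEq L] {W : WeierstrassCurve L}

/-- integral points near each other, with a unit as ordinate, have a difference near the origin -/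
lemma big_of_close (hW : SI W) (h2 : ‖(2 : L)‖ = 1) {x1 y1 x2 y2 : L}
    {n1 : W.toAffine.Nonsingular x1 y1} {n2 : W.toAffine.Nonsingular x2 y2} {r : ℝ} (hr : 0 < r)
    (hr1 : r < 1) (hx1 : ‖x1‖ ≤ 1) (hx2 : ‖x2‖ ≤ 1) (hy : ‖y1‖ = 1) (hx : ‖x1 - x2‖ ≤ r)
    (hy12 : ‖y1 - y2‖ < 1) :
    Big (1 / r ^ 2) (Affine.Point.some x1 y1 n1 - Affine.Point.some x2 y2 n2) := by
  have h20 : (2 : L) ≠ 0 := by
    intro h; rw [h, norm_zero] at h2; norm_num at h2
  generalize hT : Affine.Point.some x1 y1 n1 - Affine.Point.some x2 y2 n2 = T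
  match T with
  | .zero => exact big_zero _
  | .some X Y n3 =>
    rw [big_some]
    obtain ⟨l, hl1, hl2, hl3⟩ := hW.toShort.chord h20 hT
    have e1 : ‖y1 + y2‖ = 1 := by
      have : y1 + y2 = 2 * y1 - (y1 - y2) := by ring
      rw [this, usub_eq]
      · rw [norm_mul, h2, hy, one_mul]
      · rw [norm_mul, h2, hy, one_mul]
        exact hy12
    have e2 : ‖l‖ * ‖x1 - x2‖ = 1 := by rw [← norm_mul, hl1, e1]
    have e3 : 1 ≤ ‖l‖ * r := by
      rw [← e2]
      exact mul_le_mul_of_nonneg_left hx (norm_nonneg _)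
    have e4 : 1 / r ≤ ‖l‖ := by
      rw [div_le_iff₀ hr]
      exact e3
    have e5 : 1 < 1 / r := by
      rw [lt_div_iff₀ hr]
      linarith
    have e6 : 1 < ‖l‖ ^ 2 := by nlinarith
    have e7 : ‖X‖ = ‖l‖ ^ 2 := by
      have : X = l ^ 2 - (x1 + x2) := by rw [hl3]; ring
      rw [this, usub_eq, norm_pow]
      rw [norm_pow]
      exact (uadd hx1 hx2).trans_lt e6
    rw [e7]
    calc 1 / r ^ 2 = (1 / r) ^ 2 := by ring
      _ ≤ ‖l‖ ^ 2 := pow_le_pow_left₀ (by positivity) e4 2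

/-- a point near an integral point -/
lemma close_of_big (hW : SI W) (h20 : (2 : L) ≠ 0) {x1 y1 : L}
    {n1 : W.toAffine.Nonsingular x1 y1} {T : W.toAffine.Point} {R : ℝ} (hR : 1 < R)
    (hx1 : ‖x1‖ ≤ 1) (hB : Big R (Affine.Point.some x1 y1 n1 - T)) :
    ∃ (x2 y2 : L) (n2 : W.toAffine.Nonsingular x2 y2), T = Affine.Point.some x2 y2 n2 ∧
      ‖x2‖ ≤ 1 ∧ ‖x1 - x2‖ ^ 2 * R ≤ 1 ∧ ‖y1 - y2‖ ^ 2 * R ≤ 1 := by
  match T with
  | .zero =>
    exfalso
    have h0 : Affine.Point.some x1 y1 n1 - (Affine.Point.zero : W.toAffine.Point) =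
      Affine.Point.some x1 y1 n1 := sub_zero _
    rw [h0, big_some] at hB
    linarith
  | .some x2 y2 n2 =>
    have hx2 : ‖x2‖ ≤ 1 := by
      by_contra hc
      rw [not_le] at hc
      have h := hW.near_of_big h20 hR hB 2
      rw [nc_int hx1, nc_non hc] at h
      have h3 : ‖(1 : L) - 1 / y2‖ = 1 := by
        rw [usub_eq (by rw [norm_one]; exact hW.norm_w_lt n2 hc), norm_one]
      change ‖(1 : L) - 1 / y2‖ ^ 2 * R ≤ 1 at h
      rw [h3] at h
      linarith
    refine ⟨x2, y2, n2, rfl, hx2, ?_, ?_⟩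
    · have h := hW.near_of_big h20 hR hB 0
      rw [nc_int hx1, nc_int hx2] at h
      exact h
    · have h := hW.near_of_big h20 hR hB 1
      rw [nc_int hx1, nc_int hx2] at h
      exact h

end general

section padic

variable {p : ℕ} [hp : Fact p.Prime] [DecidableEq ℚ_[p]] {W : WeierstrassCurve ℚ_[p]}

/-- the filtration -/
def G (r : ℕ) (T : W.toAffine.Point) : Prop := Big ((p : ℝ) ^ (2 * r)) T

lemma p_one_lt : (1 : ℝ) < p := by exact_mod_cast hp.out.one_lt

lemma R_one_lt {r : ℕ} (hr : 1 ≤ r) : (1 : ℝ) < (p : ℝ) ^ (2 * r) :=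
  one_lt_pow₀ p_one_lt (by omega)

lemma G_mono {r s : ℕ} (h : r ≤ s) {T : W.toAffine.Point} (hT : G s T) : G r T :=
  big_mono (pow_le_pow_right₀ p_one_lt.le (by omega)) hT

lemma G_add (hW : SI W) {r : ℕ} (hr : 1 ≤ r) {S T : W.toAffine.Point} (hS : G r S) (hT : G r T) :
    G r (S + T) := hW.big_add two_ne_zero (R_one_lt hr) hS hT

lemma G_nsmul (hW : SI W) {r : ℕ} (hr : 1 ≤ r) {T : W.toAffine.Point} (hT : G r T) (n : ℕ) :
    G r (n • T) := hW.big_nsmul two_ne_zero (R_one_lt hr) hT n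

lemma G_neg (hW : SI W) {r : ℕ} {T : W.toAffine.Point} (hT : G r T) : G r (-T) := hW.big_neg hT

/-- a point in all steps of the filtration is zero -/
lemma eq_zero_of_G {T : W.toAffine.Point} (h : ∀ r : ℕ, 1 ≤ r → G r T) : T = 0 := by
  match T with
  | .zero => rfl
  | .some x y n =>
    exfalso
    obtain ⟨m, hm⟩ := pow_unbounded_of_one_lt ‖x‖ (p_one_lt (p := p))
    have h1 := big_some.mp (h (m + 1) (by omega))
    have h2 : (p : ℝ) ^ m ≤ (p : ℝ) ^ (2 * (m + 1)) :=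
      pow_le_pow_right₀ p_one_lt.le (by omega)
    linarith

lemma G_p (hW : SI W) {r : ℕ} (hr : 1 ≤ r) {T : W.toAffine.Point} (hT : G r T) :
    G (r + 1) (p • T) := by
  have hR := R_one_lt (p := p) hr
  have hadd := zp_nsmul hW two_ne_zero hR hT p
  have hBp := hW.big_nsmul two_ne_zero hR hT p
  generalize hT' : p • T = T' at hadd hBp ⊢
  match T' with
  | .zero => exact big_zero _
  | .some x' y' n' =>
    have hx' : 1 < ‖x'‖ := hR.trans_le (big_some.mp hBp)
    have hz' := hW.norm_z n' hx'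
    have hzT : ‖zp T‖ ^ 2 * (p : ℝ) ^ (2 * r) ≤ 1 := by
      match T with
      | .zero => simp [zp]
      | .some x y n =>
        have hx := big_some.mp hT
        have hz := hW.norm_z n (hR.trans_le hx)
        calc ‖x / y‖ ^ 2 * (p : ℝ) ^ (2 * r) ≤ ‖x / y‖ ^ 2 * ‖x‖ :=
              mul_le_mul_of_nonneg_left hx (by positivity)
          _ = 1 := hz
    have hp0 : (0 : ℝ) < p := by exact_mod_cast hp.out.pos
    have hp1 : (1 : ℝ) < p := p_one_lt
    have key : ∀ (u : ℚ_[p]) (m : ℕ), ‖u‖ ^ 2 * (p : ℝ) ^ (2 * m) ≤ 1 →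
        ‖u‖ * (p : ℝ) ^ m ≤ 1 := by
      intro u m h
      have : (‖u‖ * (p : ℝ) ^ m) ^ 2 ≤ 1 ^ 2 := by
        rw [mul_pow, ← pow_mul, mul_comm m 2, one_pow]
        exact h
      exact le_of_sq_le_sq this zero_le_one
    have h1 : ‖zp T‖ * (p : ℝ) ^ r ≤ 1 := key _ r hzT
    have h2 : ‖(x' / y') - p * zp T‖ * (p : ℝ) ^ (3 * r) ≤ 1 := by
      apply key
      have : (p : ℝ) ^ (2 * (3 * r)) = ((p : ℝ) ^ (2 * r)) ^ 3 := by
        rw [← pow_mul]; congr 1; ring
      rw [this]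
      exact hadd
    have h3 : ‖(p : ℚ_[p]) * zp T‖ * (p : ℝ) ^ (r + 1) ≤ 1 := by
      rw [norm_mul, Padic.norm_p, pow_succ]
      calc (p : ℝ)⁻¹ * ‖zp T‖ * ((p : ℝ) ^ r * p) = ‖zp T‖ * (p : ℝ) ^ r := by field_simp
        _ ≤ 1 := h1
    have h2' : ‖(x' / y') - p * zp T‖ * (p : ℝ) ^ (r + 1) ≤ 1 := by
      refine le_trans (mul_le_mul_of_nonneg_left ?_ (norm_nonneg _)) h2
      exact pow_le_pow_right₀ hp1.le (by omega)
    have h4 : ‖x' / y'‖ * (p : ℝ) ^ (r + 1) ≤ 1 := by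
      have hP : (0 : ℝ) < (p : ℝ) ^ (r + 1) := by positivity
      rw [← le_div_iff₀ hP] at h2' h3 ⊢
      have : x' / y' = (x' / y' - p * zp T) + p * zp T := by ring
      rw [this]
      exact uadd h2' h3
    change Big _ _
    rw [big_some]
    have h5 : ‖x' / y'‖ ^ 2 * (p : ℝ) ^ (2 * (r + 1)) ≤ 1 := by
      have : ‖x' / y'‖ ^ 2 * (p : ℝ) ^ (2 * (r + 1)) = (‖x' / y'‖ * (p : ℝ) ^ (r + 1)) ^ 2 := by
        rw [mul_pow, ← pow_mul, mul_comm (r + 1) 2]
      rw [this]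
      exact pow_le_one₀ (by positivity) h4
    by_contra hc
    rw [not_le] at hc
    have h6 : 0 < ‖x' / y'‖ ^ 2 := by
      by_contra hc'
      have h7 : ‖x' / y'‖ ^ 2 = 0 := le_antisymm (not_lt.mp hc') (sq_nonneg _)
      rw [h7, zero_mul] at hz'
      norm_num at hz'
    nlinarith

lemma G_pow (hW : SI W) {r : ℕ} (hr : 1 ≤ r) {T : W.toAffine.Point} (hT : G r T) (j : ℕ) :
    G (r + j) ((p ^ j) • T) := by
  induction j with
  | zero => simpa using hT
  | succ j ih =>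
    have h := G_p hW (by omega) ih
    rw [pow_succ, mul_comm, mul_smul]
    exact h

/-- **Division.** -/
theorem exists_division (hW : SI W) (hp2 : p ≠ 2) {n : ℕ} (hn : 1 ≤ n) (hpn : ¬ p ∣ n)
    (P : W.toAffine.Point) {x0 y0 : ℚ_[p]}
    (n0 : W.toAffine.Nonsingular x0 y0) (hx0 : ‖x0‖ ≤ 1) (hy0 : ‖y0‖ = 1)
    (hG : G 1 (n • (Affine.Point.some x0 y0 n0 - P))) :
    ∃ (x y : ℚ_[p]) (h : W.toAffine.Nonsingular x y), ‖x - x0‖ < 1 ∧ ‖y - y0‖ < 1 ∧
      n • (Affine.Point.some x y h) = n • P := by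
  have h2n : ‖(2 : ℚ_[p])‖ = 1 := by
    have hnd : ¬ p ∣ 2 := by
      intro hd
      exact hp2 ((Nat.prime_dvd_prime_iff_eq hp.out Nat.prime_two).mp hd)
    have h7 : ¬ ‖((2 : ℤ) : ℚ_[p])‖ < 1 := by
      rw [Padic.norm_intCast_lt_one_iff]
      exact_mod_cast hnd
    have h8 := Padic.norm_int_le_one (p := p) (2 : ℤ)
    push_cast at h7 h8
    exact le_antisymm h8 (not_lt.mp h7)
  have h20 : (2 : ℚ_[p]) ≠ 0 := two_ne_zero
  have hp0 : (0 : ℝ) < p := by exact_mod_cast hp.out.pos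
  have hp1 : (1 : ℝ) < p := p_one_lt
  set e := Nat.totient n with he
  have he1 : 1 ≤ e := Nat.totient_pos.mpr hn
  obtain ⟨q, hq⟩ : ∃ q : ℕ, p ^ e = 1 + n * q := by
    have hco : Nat.Coprime p n := (Nat.Prime.coprime_iff_not_dvd hp.out).mpr hpn
    have h1 := Nat.ModEq.pow_totient hco
    have h2 : 1 ≤ p ^ e := Nat.one_le_pow _ _ hp.out.pos
    have h3 : n ∣ p ^ e - 1 := (Nat.modEq_iff_dvd' h2).mp h1.symm
    obtain ⟨q, hq⟩ := h3
    exact ⟨q, by omega⟩
  set R0 : W.toAffine.Point := Affine.Point.some x0 y0 n0 with hR0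
  set Δ := R0 - P with hΔ
  set B : ℕ → W.toAffine.Point := fun j => P + (p ^ (e * j)) • Δ with hB
  have hB0 : B 0 = R0 := by simp [hB, hΔ]
  have hstep : ∀ j, G (j + 1) (B (j + 1) - B j) := by
    intro j
    have h1 : B (j + 1) - B j = (p ^ (e * j)) • (q • (n • Δ)) := by
      simp only [hB]
      have h2 : p ^ (e * (j + 1)) = p ^ (e * j) + p ^ (e * j) * (q * n) := by
        rw [mul_add, pow_add, mul_one, hq]; ring
      rw [h2, add_smul, smul_smul, smul_smul, mul_assoc]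
      abel
    rw [h1]
    have h3 := G_pow hW le_rfl (G_nsmul hW le_rfl hG q) (e * j)
    refine G_mono ?_ h3
    have : j ≤ e * j := Nat.le_mul_of_pos_left j he1
    omega
  -- all terms are integral points near the first one
  have hex : ∀ j, ∃ (x y : ℚ_[p]) (h : W.toAffine.Nonsingular x y),
      B j = Affine.Point.some x y h ∧ ‖x‖ ≤ 1 := by
    intro j
    induction j with
    | zero => exact ⟨x0, y0, n0, hB0, hx0⟩
    | succ j ih =>
      obtain ⟨x, y, h, hxy, hx⟩ := ih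
      have h1 := G_neg hW (hstep j)
      rw [neg_sub, hxy] at h1
      obtain ⟨x2, y2, n2, e1, e2, -⟩ := close_of_big hW h20 (R_one_lt (by omega)) hx h1
      exact ⟨x2, y2, n2, e1, e2⟩
  choose xs ys hs hBs hxs using hex
  have hdiff : ∀ j, ‖xs (j + 1) - xs j‖ * (p : ℝ) ^ (j + 1) ≤ 1 ∧
      ‖ys (j + 1) - ys j‖ * (p : ℝ) ^ (j + 1) ≤ 1 := by
    intro j
    have h1 := hstep j
    rw [hBs (j + 1)] at h1
    obtain ⟨x2, y2, n2, e1, -, e3, e4⟩ := close_of_big hW h20 (R_one_lt (by omega)) (hxs (j + 1)) h1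
    rw [hBs j, Affine.Point.some.injEq] at e1
    obtain ⟨rfl, rfl⟩ := e1
    have key : ∀ u : ℚ_[p], ‖u‖ ^ 2 * (p : ℝ) ^ (2 * (j + 1)) ≤ 1 →
        ‖u‖ * (p : ℝ) ^ (j + 1) ≤ 1 := by
      intro u h
      have : (‖u‖ * (p : ℝ) ^ (j + 1)) ^ 2 ≤ 1 ^ 2 := by
        rw [mul_pow, ← pow_mul, mul_comm (j + 1) 2, one_pow]
        exact h
      exact le_of_sq_le_sq this zero_le_one
    exact ⟨key _ e3, key _ e4⟩
  -- a general lemma on limits
  have hlim : ∀ f : ℕ → ℚ_[p], (∀ j, ‖f (j + 1) - f j‖ * (p : ℝ) ^ (j + 1) ≤ 1) →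
      ∃ l, Tendsto f atTop (𝓝 l) ∧ ∀ j, ‖l - f j‖ ≤ 1 / (p : ℝ) ^ (j + 1) := by
    intro f hf
    have hf' : ∀ j, ‖f (j + 1) - f j‖ ≤ 1 / (p : ℝ) ^ (j + 1) := by
      intro j
      rw [le_div_iff₀ (by positivity)]
      exact hf j
    have hmon : ∀ i j : ℕ, i ≤ j → 1 / (p : ℝ) ^ (j + 1) ≤ 1 / (p : ℝ) ^ (i + 1) := by
      intro i j hij
      apply one_div_le_one_div_of_le (by positivity)
      exact pow_le_pow_right₀ hp1.le (by omega)
    have hall : ∀ i j, i ≤ j → ‖f j - f i‖ ≤ 1 / (p : ℝ) ^ (i + 1) := by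
      intro i j hij
      induction j, hij using Nat.le_induction with
      | base => rw [sub_self, norm_zero]; positivity
      | succ j hj ih =>
        have : f (j + 1) - f i = (f (j + 1) - f j) + (f j - f i) := by ring
        rw [this]
        exact uadd ((hf' j).trans (hmon i j hj)) ih
    have hC : CauchySeq f := by
      apply cauchySeq_of_le_geometric (1 / (p : ℝ)) (1 / (p : ℝ)) ((div_lt_one hp0).mpr hp1)
      intro j
      rw [dist_comm, dist_eq_norm]
      refine (hf' j).trans (le_of_eq ?_)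
      rw [one_div_pow, pow_succ]
      field_simp
    obtain ⟨l, hl⟩ := cauchySeq_tendsto_of_complete hC
    refine ⟨l, hl, fun i => ?_⟩
    have h1 : Tendsto (fun j => ‖f j - f i‖) atTop (𝓝 ‖l - f i‖) := (hl.sub_const _).norm
    exact le_of_tendsto h1 (Filter.eventually_atTop.mpr ⟨i, fun j hj => hall i j hj⟩)
  obtain ⟨x, hxl, hx⟩ := hlim xs (fun j => (hdiff j).1)
  obtain ⟨y, hyl, hy⟩ := hlim ys (fun j => (hdiff j).2)
  have h00 : xs 0 = x0 ∧ ys 0 = y0 := by
    have := hBs 0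
    rw [hB0, hR0, Affine.Point.some.injEq] at this
    exact ⟨this.1.symm, this.2.symm⟩
  have hr1 : ∀ j : ℕ, 1 / (p : ℝ) ^ (j + 1) < 1 := by
    intro j
    rw [div_lt_one (by positivity)]
    exact one_lt_pow₀ hp1 (by omega)
  have hxx0 : ‖x - x0‖ < 1 := by
    have := hx 0
    rw [h00.1] at this
    exact this.trans_lt (hr1 0)
  have hyy0 : ‖y - y0‖ < 1 := by
    have := hy 0
    rw [h00.2] at this
    exact this.trans_lt (hr1 0)
  have hxn : ‖x‖ ≤ 1 := by
    have : x = (x - x0) + x0 := by ring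
    rw [this]
    exact uadd hxx0.le hx0
  have hyn : ‖y‖ = 1 := by
    have : y = y0 + (y - y0) := by ring
    rw [this, uadd_eq (by rw [hy0]; exact hyy0), hy0]
  have heq : y ^ 2 = x ^ 3 + W.a₄ * x + W.a₆ := by
    have h1 : Tendsto (fun j => ys j ^ 2) atTop (𝓝 (y ^ 2)) := hyl.pow 2
    have h2 : Tendsto (fun j => xs j ^ 3 + W.a₄ * xs j + W.a₆) atTop
        (𝓝 (x ^ 3 + W.a₄ * x + W.a₆)) := ((hxl.pow 3).add (hxl.const_mul _)).add_const _
    have h3 : (fun j => ys j ^ 2) = fun j => xs j ^ 3 + W.a₄ * xs j + W.a₆ :=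
      funext fun j => hW.toShort.eqn (hs j)
    rw [h3] at h1
    exact tendsto_nhds_unique h1 h2
  have hns : W.toAffine.Nonsingular x y := by
    rw [Affine.nonsingular_iff, Affine.equation_iff, hW.h1, hW.h2, hW.h3]
    refine ⟨by linear_combination heq, Or.inr ?_⟩
    intro h
    have h5 : 2 * y = 0 := by linear_combination h
    rcases mul_eq_zero.mp h5 with h6 | h6
    · exact h20 h6
    · rw [h6, norm_zero] at hyn; norm_num at hyn
  refine ⟨x, y, hns, hxx0, hyy0, ?_⟩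
  set P' : W.toAffine.Point := Affine.Point.some x y hns with hP'
  have hclose : ∀ j, G (j + 1) (P' - B j) := by
    intro j
    have h1 := big_of_close hW h2n (n1 := hns) (n2 := hs j) (r := 1 / (p : ℝ) ^ (j + 1))
      (by positivity) (hr1 j) hxn (hxs j) hyn (hx j) ((hy j).trans_lt (hr1 j))
    rw [← hBs j] at h1
    have h2 : 1 / (1 / (p : ℝ) ^ (j + 1)) ^ 2 = (p : ℝ) ^ (2 * (j + 1)) := by
      rw [one_div_pow, one_div_one_div, ← pow_mul, mul_comm]
    rw [h2] at h1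
    exact h1
  have hfin : n • P' - n • P = 0 := by
    apply eq_zero_of_G
    intro r hr
    obtain ⟨j, rfl⟩ : ∃ j, r = j + 1 := ⟨r - 1, by omega⟩
    have h1 : n • P' - n • P = n • (P' - B j) + (p ^ (e * j)) • (n • Δ) := by
      have e1 : n • (P' - (P + p ^ (e * j) • Δ)) = n • P' - (n • P + n • (p ^ (e * j) • Δ)) := by
        rw [nsmul_sub, nsmul_add]
      have e2 : (p ^ (e * j)) • (n • Δ) = n • (p ^ (e * j) • Δ) := by
        rw [smul_smul, smul_smul, mul_comm]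
      simp only [hB]
      rw [e1, e2]
      abel
    rw [h1]
    refine G_add hW hr (G_nsmul hW hr (hclose j) n) ?_
    have h3 := G_pow hW le_rfl hG (e * j)
    refine G_mono ?_ h3
    have : j ≤ e * j := Nat.le_mul_of_pos_left j he1
    omega
  exact sub_eq_zero.mp hfin

end padic

end Pool.Agent.H68K
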