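import Mathlib
import Pool.Agent.H68K.Pad

/-!
# Points of an elliptic curve over `ℚ_p` with many points of order two have a multiple, prime to `p`,
in the kernel of reduction
-/

set_option autoImplicit false
set_option linter.unusedSectionVars false

open WeierstrassCurve Pool.Agent.TH954 Pool.Agent.Y718

namespace Pool.Agent.H68K

variable {p : ℕ} [hp : Fact p.Prime]

lemma norm_two (hp2 : p ≠ 2) : ‖(2 : ℚ_[p])‖ = 1 := by
  have hnd : ¬ p ∣ 2 := by
    intro hd
    exact hp2 ((Nat.prime_dvd_prime_iff_eq hp.out Nat.prime_two).mp hd)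
  have h7 : ¬ ‖((2 : ℤ) : ℚ_[p])‖ < 1 := by
    rw [Padic.norm_intCast_lt_one_iff]
    exact_mod_cast hnd
  have h8 := Padic.norm_int_le_one (p := p) (2 : ℤ)
  push_cast at h7 h8
  exact le_antisymm h8 (not_lt.mp h7)

lemma toZMod_eq_zero_iff (z : ℤ_[p]) : PadicInt.toZMod z = 0 ↔ ‖z‖ < 1 := by
  rw [← RingHom.mem_ker, PadicInt.ker_toZMod, IsLocalRing.mem_maximalIdeal, PadicInt.mem_nonunits]

/-- an integral element as a `p`-adic integer -/
def mkZ {x : ℚ_[p]} (h : ‖x‖ ≤ 1) : ℤ_[p] := ⟨x, h⟩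

lemma coe_mkZ {x : ℚ_[p]} (h : ‖x‖ ≤ 1) : ((mkZ h : ℤ_[p]) : ℚ_[p]) = x := rfl

lemma toZMod_mkZ_eq {x y : ℚ_[p]} (hx : ‖x‖ ≤ 1) (hy : ‖y‖ ≤ 1) :
    PadicInt.toZMod (mkZ hx) = PadicInt.toZMod (mkZ hy) ↔ ‖x - y‖ < 1 := by
  rw [← sub_eq_zero, ← map_sub, toZMod_eq_zero_iff]
  rfl

lemma norm_le_inv {u : ℚ_[p]} (h : ‖u‖ < 1) : ‖u‖ ≤ (p : ℝ)⁻¹ := by
  have := (Padic.norm_le_pow_iff_norm_lt_pow_add_one u (-1)).mpr (by simpa using h)
  simpa using this

variable [DecidableEq ℚ_[p]] {W : WeierstrassCurve ℚ_[p]}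

/-- a point which is not integral is in the first step of the filtration -/
lemma G_one_of_lt (hW : SI W) {x y : ℚ_[p]} (h : W.toAffine.Nonsingular x y) (hx : 1 < ‖x‖) :
    G 1 (Affine.Point.some x y h) := by
  have hz := hW.norm_z h hx
  have hz0 : ‖x / y‖ < 1 := by
    by_contra hc
    rw [not_lt] at hc
    have : 1 ≤ ‖x / y‖ ^ 2 := one_le_pow₀ hc
    nlinarith
  have hz1 := norm_le_inv hz0
  have hp0 : (0 : ℝ) < p := by exact_mod_cast hp.out.pos
  change Big _ _
  rw [big_some]
  have h5 : ‖x / y‖ ^ 2 ≤ ((p : ℝ)⁻¹) ^ 2 := by gcongr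
  have h6 : 1 ≤ ((p : ℝ)⁻¹) ^ 2 * ‖x‖ := by
    rw [← hz]
    gcongr
  have : (p : ℝ) ^ 2 * (((p : ℝ)⁻¹) ^ 2 * ‖x‖) = ‖x‖ := by
    field_simp
  rw [← this]
  simp only [mul_one]
  nlinarith [sq_nonneg (p : ℝ)]

lemma not_G_one_of_le {x y : ℚ_[p]} (h : W.toAffine.Nonsingular x y) (hx : ‖x‖ ≤ 1) :
    ¬ G 1 (Affine.Point.some x y h) := by
  intro hG
  have h1 := big_some.mp hG
  have h2 : (1 : ℝ) < (p : ℝ) ^ (2 * 1) := R_one_lt le_rfl
  linarith

/-- integral points with the same reduction -/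
lemma G_of_same (hW : SI W) (hp2 : p ≠ 2) (hD : ‖4 * W.a₄ ^ 3 + 27 * W.a₆ ^ 2‖ = 1)
    {x1 y1 x2 y2 : ℚ_[p]} {n1 : W.toAffine.Nonsingular x1 y1} {n2 : W.toAffine.Nonsingular x2 y2}
    (hx1 : ‖x1‖ ≤ 1) (hx2 : ‖x2‖ ≤ 1) (hx : ‖x1 - x2‖ < 1) (hy : ‖y1 - y2‖ < 1) :
    G 1 (Affine.Point.some x1 y1 n1 - Affine.Point.some x2 y2 n2) := by
  have h2 := norm_two hp2
  have h20 : (2 : ℚ_[p]) ≠ 0 := two_ne_zero
  generalize hT : Affine.Point.some x1 y1 n1 - Affine.Point.some x2 y2 n2 = T
  match T with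
  | .zero => exact big_zero _
  | .some X Y n3 =>
    apply G_one_of_lt hW
    obtain ⟨l, hl1, hl2, hl3⟩ := hW.toShort.chord h20 hT
    have hy1n := hW.norm_y_le_one n1 hx1
    have key : 1 < ‖l‖ := by
      rcases (hy1n).lt_or_eq with hlt | heq
      · -- the tangent is vertical modulo `p`
        have e1 := hW.toShort.eqn n1
        have hid : 4 * (4 * W.a₄ ^ 3 + 27 * W.a₆ ^ 2) =
            4 * ((3 * x1 ^ 2 + 4 * W.a₄) * (3 * x1 ^ 2 + W.a₄) ^ 2) -
            27 * ((x1 ^ 3 + W.a₄ * x1 - W.a₆) * (2 * y1) ^ 2) := by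
          linear_combination 108 * (x1 ^ 3 + W.a₄ * x1 - W.a₆) * e1
        have h4 : ‖(4 : ℚ_[p])‖ = 1 := by
          have : (4 : ℚ_[p]) = 2 * 2 := by norm_num
          rw [this, norm_mul, h2, one_mul]
        have hx1s : ‖x1 ^ 2‖ ≤ 1 := by rw [norm_pow]; exact pow_le_one₀ (norm_nonneg _) hx1
        have hx1c : ‖x1 ^ 3‖ ≤ 1 := by rw [norm_pow]; exact pow_le_one₀ (norm_nonneg _) hx1
        have hf' : ‖3 * x1 ^ 2 + W.a₄‖ ≤ 1 := uadd (umul u3 hx1s) hW.ha
        have hf1 : ‖3 * x1 ^ 2 + W.a₄‖ = 1 := by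
          by_contra hne
          have hlt2 : ‖3 * x1 ^ 2 + W.a₄‖ < 1 := lt_of_le_of_ne hf' hne
          have b1 : ‖4 * ((3 * x1 ^ 2 + 4 * W.a₄) * (3 * x1 ^ 2 + W.a₄) ^ 2)‖ < 1 := by
            rw [norm_mul, h4, one_mul, norm_mul]
            have c1 : ‖3 * x1 ^ 2 + 4 * W.a₄‖ ≤ 1 := uadd (umul u3 hx1s) (umul u4 hW.ha)
            have c2 : ‖(3 * x1 ^ 2 + W.a₄) ^ 2‖ < 1 := by
              rw [norm_pow]
              exact pow_lt_one₀ (norm_nonneg _) hlt2 two_ne_zero
            calc _ ≤ 1 * ‖(3 * x1 ^ 2 + W.a₄) ^ 2‖ := by gcongr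
              _ < 1 := by rw [one_mul]; exact c2
          have b2 : ‖27 * ((x1 ^ 3 + W.a₄ * x1 - W.a₆) * (2 * y1) ^ 2)‖ < 1 := by
            have c1 : ‖x1 ^ 3 + W.a₄ * x1 - W.a₆‖ ≤ 1 :=
              usub (uadd hx1c (umul hW.ha hx1)) hW.hb
            have c2 : ‖(2 * y1) ^ 2‖ < 1 := by
              rw [norm_pow, norm_mul, h2, one_mul]
              exact pow_lt_one₀ (norm_nonneg _) hlt two_ne_zero
            rw [norm_mul, norm_mul]
            calc _ ≤ 1 * (1 * ‖(2 * y1) ^ 2‖) := by gcongr; exact u27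
              _ < 1 := by rw [one_mul, one_mul]; exact c2
          have := usub_lt b1 b2
          rw [← hid, norm_mul, h4, hD] at this
          norm_num at this
        have e4 : l * (y1 - y2) = (3 * x1 ^ 2 + W.a₄) - (x1 - x2) * (2 * x1 + x2) := by
          rw [hl2]; ring
        have e5 : ‖l * (y1 - y2)‖ = 1 := by
          rw [e4, usub_eq, hf1]
          rw [hf1, norm_mul]
          have : ‖2 * x1 + x2‖ ≤ 1 := uadd (umul u2 hx1) hx2
          calc _ ≤ ‖x1 - x2‖ * 1 := by gcongr
            _ < 1 := by rw [mul_one]; exact hx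
        rw [norm_mul] at e5
        by_contra hc
        rw [not_lt] at hc
        have : ‖l‖ * ‖y1 - y2‖ ≤ 1 * ‖y1 - y2‖ := mul_le_mul_of_nonneg_right hc (norm_nonneg _)
        linarith
      · have e5 : ‖l * (x1 - x2)‖ = 1 := by
          have : y1 + y2 = 2 * y1 - (y1 - y2) := by ring
          rw [hl1, this, usub_eq]
          · rw [norm_mul, h2, heq, one_mul]
          · rw [norm_mul, h2, heq, one_mul]
            exact hy
        rw [norm_mul] at e5
        by_contra hc
        rw [not_lt] at hc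
        have : ‖l‖ * ‖x1 - x2‖ ≤ 1 * ‖x1 - x2‖ := mul_le_mul_of_nonneg_right hc (norm_nonneg _)
        linarith
    have e6 : 1 < ‖l‖ ^ 2 := one_lt_pow₀ key two_ne_zero
    have : X = l ^ 2 - (x1 + x2) := by rw [hl3]; ring
    rw [this, usub_eq, norm_pow]
    · exact e6
    · rw [norm_pow]
      exact (uadd hx1 hx2).trans_lt e6

open scoped Classical in
/-- the reduction of a point -/
noncomputable def Res (hW : SI W) : W.toAffine.Point → Option (ZMod p × ZMod p)
  | .zero => none
  | .some x y h => if hx : ‖x‖ ≤ 1 then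
      some (PadicInt.toZMod (mkZ hx), PadicInt.toZMod (mkZ (hW.norm_y_le_one h hx))) else none

lemma G_of_Res (hW : SI W) (hp2 : p ≠ 2) (hD : ‖4 * W.a₄ ^ 3 + 27 * W.a₆ ^ 2‖ = 1)
    {S T : W.toAffine.Point} (h : Res hW S = Res hW T) : G 1 (S - T) := by
  have hnone : ∀ T : W.toAffine.Point, Res hW T = none → G 1 T := by
    intro T hT
    match T with
    | .zero => exact big_zero _
    | .some x y n =>
      apply G_one_of_lt hW
      by_contra hc
      rw [not_lt] at hc
      simp only [Res, hc, dif_pos] at hT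
      exact absurd hT (by simp)
  by_cases hS : Res hW S = none
  · have h1 := hnone S hS
    have h2 := hnone T (h ▸ hS)
    rw [sub_eq_add_neg]
    exact G_add hW le_rfl h1 (G_neg hW h2)
  · have hT : Res hW T ≠ none := h ▸ hS
    match S, T with
    | .zero, _ => exact absurd rfl hS
    | .some _ _ _, .zero => exact absurd rfl hT
    | .some x1 y1 n1, .some x2 y2 n2 =>
      by_cases hx1 : ‖x1‖ ≤ 1
      · by_cases hx2 : ‖x2‖ ≤ 1
        · simp only [Res, hx1, hx2, dif_pos, Option.some.injEq, Prod.mk.injEq] at h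
          obtain ⟨e1, e2⟩ := h
          rw [toZMod_mkZ_eq] at e1 e2
          exact G_of_same hW hp2 hD hx1 hx2 e1 e2
        · exfalso
          apply hT
          simp only [Res, hx2, dif_neg, not_false_eq_true]
      · exfalso
        apply hS
        simp only [Res, hx1, dif_neg, not_false_eq_true]

lemma card_curve (a b : ZMod p) : (Finset.univ.filter
    fun v : ZMod p × ZMod p => v.2 ^ 2 = v.1 ^ 3 + a * v.1 + b).card ≤ 2 * p := by
  classical
  have h1 : ∀ x : ZMod p, ((Finset.univ.filter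
      fun v : ZMod p × ZMod p => v.2 ^ 2 = v.1 ^ 3 + a * v.1 + b).filter fun v => v.1 = x).card ≤ 2 := by
    intro x
    have h2 : ((Finset.univ.filter
        fun v : ZMod p × ZMod p => v.2 ^ 2 = v.1 ^ 3 + a * v.1 + b).filter fun v => v.1 = x) ⊆
        ((Polynomial.nthRoots 2 (x ^ 3 + a * x + b)).toFinset).image (fun y => (x, y)) := by
      intro v hv
      rw [Finset.mem_filter, Finset.mem_filter] at hv
      obtain ⟨⟨-, hv1⟩, hv2⟩ := hv
      rw [Finset.mem_image]
      refine ⟨v.2, ?_, ?_⟩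
      · rw [Multiset.mem_toFinset, Polynomial.mem_nthRoots two_pos, hv1, hv2]
      · rw [← hv2]
    refine (Finset.card_le_card h2).trans (Finset.card_image_le.trans ?_)
    exact (Multiset.toFinset_card_le _).trans (Polynomial.card_nthRoots 2 _)
  have h3 := Finset.card_eq_sum_card_fiberwise (s := Finset.univ.filter
    fun v : ZMod p × ZMod p => v.2 ^ 2 = v.1 ^ 3 + a * v.1 + b) (t := Finset.univ)
    (f := fun v => v.1) (fun _ _ => Finset.mem_univ _)
  rw [h3]
  refine (Finset.sum_le_sum fun x _ => h1 x).trans ?_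
  rw [Finset.sum_const, Finset.card_univ, ZMod.card, smul_eq_mul, mul_comm]

/-- all reductions are in a finite set with at most `2 p + 1` elements -/
lemma exists_Res_set (hW : SI W) : ∃ S : Finset (Option (ZMod p × ZMod p)), S.card ≤ 2 * p + 1 ∧
    ∀ T, Res hW T ∈ S := by
  classical
  let a : ZMod p := PadicInt.toZMod (mkZ hW.ha)
  let b : ZMod p := PadicInt.toZMod (mkZ hW.hb)
  refine ⟨insert none ((Finset.univ.filter
    fun v : ZMod p × ZMod p => v.2 ^ 2 = v.1 ^ 3 + a * v.1 + b).image some), ?_, ?_⟩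
  · refine (Finset.card_insert_le _ _).trans ?_
    have := card_curve (p := p) a b
    have h2 := Finset.card_image_le (s := Finset.univ.filter
      fun v : ZMod p × ZMod p => v.2 ^ 2 = v.1 ^ 3 + a * v.1 + b) (f := some)
    omega
  · intro T
    match T with
    | .zero => exact Finset.mem_insert_self _ _
    | .some x y h =>
      by_cases hx : ‖x‖ ≤ 1
      · rw [Finset.mem_insert]
        right
        simp only [Res, hx, dif_pos]
        apply Finset.mem_image_of_mem
        rw [Finset.mem_filter]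
        refine ⟨Finset.mem_univ _, ?_⟩
        simp only [a, b]
        rw [← map_pow, ← map_pow, ← map_mul, ← map_add, ← map_add]
        congr 1
        apply Subtype.ext
        push_cast
        simp only [coe_mkZ]
        exact hW.toShort.eqn h
      · rw [Finset.mem_insert]
        left
        simp only [Res, hx, dif_neg, not_false_eq_true]

/-- **Multiples prime to `p`.** -/
theorem exists_order (hW : SI W) (hp2 : p ≠ 2) (hD : ‖4 * W.a₄ ^ 3 + 27 * W.a₆ ^ 2‖ = 1)
    {t1 t2 : W.toAffine.Point} (h1 : t1 ≠ 0) (h2 : t2 ≠ 0) (h12 : t1 ≠ t2) (h1' : 2 • t1 = 0)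
    (h2' : 2 • t2 = 0) (T : W.toAffine.Point) : ∃ n : ℕ, 1 ≤ n ∧ ¬ p ∣ n ∧ G 1 (n • T) := by
  classical
  obtain ⟨S, hS, hRS⟩ := exists_Res_set hW
  -- torsion points are not in the kernel of reduction
  have hnt : ∀ t : W.toAffine.Point, G 1 t → 2 • t = 0 → t = 0 := by
    intro t hG ht
    match t with
    | .zero => rfl
    | .some x y n =>
      exfalso
      have hx : 1 < ‖x‖ := (R_one_lt le_rfl).trans_le (big_some.mp hG)
      exact no_torsion hW n hx two_ne_zero ht
  have hex : ∃ m : ℕ, 1 ≤ m ∧ G 1 (m • T) := by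
    obtain ⟨i, hi, j, hj, hij, heq⟩ := Finset.exists_ne_map_eq_of_card_lt_of_maps_to
      (s := Finset.range (S.card + 1)) (t := S) (by simp) (f := fun m => Res hW (m • T))
      (fun m _ => hRS _)
    have hG := G_of_Res hW hp2 hD heq
    rcases lt_or_gt_of_ne hij with h | h
    · refine ⟨j - i, by omega, ?_⟩
      have h5 : (j - i) • T = -(i • T - j • T) := by
        have : j • T = i • T + (j - i) • T := by rw [← add_smul]; congr 1; omega
        rw [this]; abel
      rw [h5]
      exact G_neg hW hG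
    · refine ⟨i - j, by omega, ?_⟩
      have h5 : (i - j) • T = i • T - j • T := by
        have : i • T = j • T + (i - j) • T := by rw [← add_smul]; congr 1; omega
        rw [this]; abel
      rw [h5]
      exact hG
  set m := Nat.find hex with hm
  obtain ⟨hm1, hmG⟩ := Nat.find_spec hex
  refine ⟨m, hm1, ?_, hmG⟩
  rintro ⟨m', hm'⟩
  have hp1 := hp.out.one_lt
  have hm'1 : 1 ≤ m' := by
    rcases Nat.eq_zero_or_pos m' with h | h
    · rw [h, mul_zero] at hm'; omega
    · exact h
  -- divisibility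
  have hdiv : ∀ r : ℕ, G 1 (r • T) → m ∣ r := by
    intro r hr
    by_contra hnd
    have hpos : 1 ≤ r % m := Nat.pos_of_ne_zero fun h => hnd (Nat.dvd_of_mod_eq_zero h)
    have hlt : r % m < m := Nat.mod_lt _ hm1
    apply Nat.find_min hex hlt
    refine ⟨hpos, ?_⟩
    have h5 : (r % m) • T = r • T - (r / m) • (m • T) := by
      have : r • T = (r % m) • T + (r / m) • (m • T) := by
        rw [smul_smul, ← add_smul]
        congr 1
        have := Nat.mod_add_div r m
        rw [mul_comm (r / m) m]; exact this.symm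
      rw [this]; abel
    rw [h5, sub_eq_add_neg]
    exact G_add hW le_rfl hr (G_neg hW (G_nsmul hW le_rfl hmG _))
  let τ : Fin 3 → W.toAffine.Point := ![0, t1, t2]
  have hτ2 : ∀ i, 2 • τ i = 0 := by
    intro i
    fin_cases i
    · exact nsmul_zero 2
    · exact h1'
    · exact h2'
  have hτinj : ∀ i j, τ i = τ j → i = j := by
    intro i j h
    fin_cases i <;> fin_cases j <;> simp only [τ] at h ⊢
    · exact absurd h.symm h1
    · exact absurd h.symm h2
    · exact absurd h h1
    · exact absurd h h12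
    · exact absurd h h2
    · exact absurd h.symm h12
  have hp3 : ¬ p ∣ 2 := by
    intro hd
    exact hp2 ((Nat.prime_dvd_prime_iff_eq hp.out Nat.prime_two).mp hd)
  have hinj : Function.Injective (fun v : Fin p × Fin 3 =>
      Res hW ((v.1.val * m') • T + τ v.2)) := by
    have hkey : ∀ (a a' : Fin p) (i i' : Fin 3), a'.val < a.val →
        ¬ G 1 (((a.val * m') • T + τ i) - ((a'.val * m') • T + τ i')) := by
      intro a a' i i' haa hG
      have h5 := G_nsmul hW le_rfl hG 2
      have h6 : 2 • (((a.val * m') • T + τ i) - ((a'.val * m') • T + τ i')) =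
          (2 * (a.val - a'.val) * m') • T := by
        have h7 : (a.val * m') • T = (a'.val * m') • T + ((a.val - a'.val) * m') • T := by
          rw [← add_smul]; congr 1
          rw [← add_mul]; congr 1; omega
        rw [nsmul_sub, nsmul_add, nsmul_add, hτ2, hτ2, h7, nsmul_add, smul_smul 2
          ((a.val - a'.val) * m'), ← mul_assoc]
        abel
      rw [h6] at h5
      have h8 := hdiv _ h5
      rw [hm'] at h8
      have h9 : p ∣ 2 * (a.val - a'.val) := Nat.dvd_of_mul_dvd_mul_right hm'1 h8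
      rcases (Nat.Prime.dvd_mul hp.out).mp h9 with h | h
      · exact hp3 h
      · have := Nat.le_of_dvd (by omega) h
        have := a.isLt
        omega
    rintro ⟨a, i⟩ ⟨a', i'⟩ h
    have hG := G_of_Res hW hp2 hD h
    simp only at hG
    rcases lt_trichotomy a.val a'.val with hlt | heq | hgt
    · exfalso
      apply hkey a' a i' i hlt
      have := G_neg hW hG
      rwa [neg_sub] at this
    · have haa : a = a' := Fin.ext heq
      subst haa
      have h10 : (((a.val * m') • T + τ i) - ((a.val * m') • T + τ i')) = τ i - τ i' := by abel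
      rw [h10] at hG
      have h11 : τ i - τ i' = 0 := hnt _ hG (by rw [nsmul_sub, hτ2, hτ2, sub_zero])
      rw [hτinj i i' (sub_eq_zero.mp h11)]
    · exact absurd hG (hkey a a' i i' hgt)
  have hcard : Fintype.card (Fin p × Fin 3) ≤ S.card := by
    rw [← Finset.card_univ, ← Finset.card_image_of_injective _ hinj]
    apply Finset.card_le_card
    intro v hv
    rw [Finset.mem_image] at hv
    obtain ⟨w, -, rfl⟩ := hv
    exact hRS _
  rw [Fintype.card_prod, Fintype.card_fin, Fintype.card_fin] at hcard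
  omega

end Pool.Agent.H68K
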