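import Mathlib
import Pool.Agent.H341R2.WeilSharp

/-!
# Points over finite fields where one quadratic character is `1` and the other one is `-1`
-/

set_option autoImplicit false

open Polynomial

namespace Pool.Agent.H68K

lemma exists_residue {p : ℕ} [Fact p.Prime] (hp : 64 < p) (a b c κ : ZMod p) (hκ : κ ≠ 0)
    (hc : c ^ 3 + a * c + b ≠ 0) :
    ∃ x : ZMod p, x ^ 3 + a * x + b ≠ 0 ∧ IsSquare (x ^ 3 + a * x + b) ∧ x ≠ c ∧
      ¬ IsSquare (κ * (x - c)) := by
  have hchar : ringChar (ZMod p) ≠ 2 := by
    rw [ZMod.ringChar_zmod_n]; omega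
  set f : (ZMod p)[X] := X ^ 3 + C a * X + C b with hf
  set g : (ZMod p)[X] := C κ * (X - C c) with hg
  have hfd : f.natDegree = 3 := by rw [hf]; compute_degree!
  have hgd : g.natDegree = 1 := by
    rw [hg, natDegree_C_mul hκ, natDegree_X_sub_C]
  have hf0 : f ≠ 0 := by
    intro h; rw [h] at hfd; simp at hfd
  have hg0 : g ≠ 0 := by
    intro h; rw [h] at hgd; simp at hgd
  have hfgd : (f * g).natDegree = 4 := by rw [natDegree_mul hf0 hg0, hfd, hgd]
  have odd_ne : ∀ q : (ZMod p)[X], q ≠ 0 → Odd q.natDegree →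
      ∀ (c : ZMod p) (h : (ZMod p)[X]), q ≠ C c * h ^ 2 := by
    intro q hq hodd c h heq
    have hc0 : c ≠ 0 := by
      rintro rfl
      rw [C_0, zero_mul] at heq
      exact hq heq
    rw [heq, natDegree_C_mul hc0, natDegree_pow] at hodd
    exact (Nat.not_odd_iff_even.mpr (even_two_mul _)) hodd
  have hns1 := odd_ne f hf0 (by rw [hfd]; decide)
  have hns2 := odd_ne g hg0 (by rw [hgd]; decide)
  have hfc : f.eval c ≠ 0 := by
    rw [hf]; simpa using hc
  have hns3 : ∀ (d : ZMod p) (h : (ZMod p)[X]), f * g ≠ C d * h ^ 2 := by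
    intro d h heq
    have hd0 : d ≠ 0 := by
      rintro rfl
      rw [C_0, zero_mul] at heq
      exact mul_ne_zero hf0 hg0 heq
    have h0 : h ≠ 0 := by
      rintro rfl
      rw [zero_pow two_ne_zero, mul_zero] at heq
      exact mul_ne_zero hf0 hg0 heq
    have hm := congrArg (rootMultiplicity c) heq
    rw [sq, rootMultiplicity_mul (mul_ne_zero hf0 hg0), rootMultiplicity_mul
      (mul_ne_zero (by rwa [Ne, C_eq_zero]) (mul_ne_zero h0 h0)),
      rootMultiplicity_mul (mul_ne_zero h0 h0),
      rootMultiplicity_C, rootMultiplicity_eq_zero (p := f) (by rwa [IsRoot.def]), hg,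
      rootMultiplicity_mul (by rw [← hg]; exact hg0), rootMultiplicity_C,
      rootMultiplicity_X_sub_C_self] at hm
    omega
  have w1 := Pool.Agent.H341R2.Sharp.weil_sharp hchar f (by omega) hns1
  have w2 := Pool.Agent.H341R2.Sharp.weil_sharp hchar g (by omega) hns2
  have w3 := Pool.Agent.H341R2.Sharp.weil_sharp hchar (f * g) (by omega) hns3
  rw [hfd, ZMod.card] at w1
  rw [hgd, ZMod.card] at w2
  rw [hfgd, ZMod.card] at w3
  set S1 : ℝ := ∑ x : ZMod p, (quadraticChar (ZMod p) (f.eval x) : ℝ) with hS1
  set S2 : ℝ := ∑ x : ZMod p, (quadraticChar (ZMod p) (g.eval x) : ℝ) with hS2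
  set S3 : ℝ := ∑ x : ZMod p, (quadraticChar (ZMod p) ((f * g).eval x) : ℝ) with hS3
  have hsum : ∑ x : ZMod p, (1 + (quadraticChar (ZMod p) (f.eval x) : ℝ)) *
      (1 - (quadraticChar (ZMod p) (g.eval x) : ℝ)) = p + S1 - S2 - S3 := by
    rw [hS1, hS2, hS3]
    have : ∀ x : ZMod p, (1 + (quadraticChar (ZMod p) (f.eval x) : ℝ)) *
        (1 - (quadraticChar (ZMod p) (g.eval x) : ℝ)) = 1 +
        (quadraticChar (ZMod p) (f.eval x) : ℝ) - (quadraticChar (ZMod p) (g.eval x) : ℝ) -
        (quadraticChar (ZMod p) ((f * g).eval x) : ℝ) := by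
      intro x
      have he : (f * g).eval x = f.eval x * g.eval x := eval_mul
      rw [he, map_mul]
      push_cast
      ring
    simp_rw [this, Finset.sum_sub_distrib, Finset.sum_add_distrib]
    simp [ZMod.card]
  by_contra hcon
  push Not at hcon
  -- each term is at most `2`, and zero outside of the zeros of `f g`
  have hterm : ∀ x : ZMod p, (1 + (quadraticChar (ZMod p) (f.eval x) : ℝ)) *
      (1 - (quadraticChar (ZMod p) (g.eval x) : ℝ)) ≤ if x ∈ (f * g).roots.toFinset then 2 else 0 := by
    intro x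
    have hfx : f.eval x = x ^ 3 + a * x + b := by rw [hf]; simp
    have hgx : g.eval x = κ * (x - c) := by rw [hg]; simp
    by_cases h1 : f.eval x = 0
    · have hmem : x ∈ (f * g).roots.toFinset := by
        rw [Multiset.mem_toFinset, mem_roots (mul_ne_zero hf0 hg0), IsRoot.def, eval_mul, h1,
          zero_mul]
      rw [if_pos hmem, h1, quadraticChar_zero]
      push_cast
      rcases quadraticChar_isQuadratic (ZMod p) (g.eval x) with h | h | h <;> rw [h] <;> norm_num
    · by_cases h2 : g.eval x = 0
      · have hmem : x ∈ (f * g).roots.toFinset := by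
          rw [Multiset.mem_toFinset, mem_roots (mul_ne_zero hf0 hg0), IsRoot.def, eval_mul, h2,
            mul_zero]
        rw [if_pos hmem, h2, quadraticChar_zero]
        push_cast
        rcases quadraticChar_isQuadratic (ZMod p) (f.eval x) with h | h | h <;> rw [h] <;> norm_num
      · have hnm : x ∉ (f * g).roots.toFinset := by
          rw [Multiset.mem_toFinset, mem_roots (mul_ne_zero hf0 hg0), IsRoot.def, eval_mul]
          exact mul_ne_zero h1 h2
        rw [if_neg hnm]
        rcases quadraticChar_dichotomy h1 with h | h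
        · have hsq : IsSquare (f.eval x) := (quadraticChar_one_iff_isSquare h1).mp h
          have hxc : x ≠ c := by
            rintro rfl
            apply h2
            rw [hgx, sub_self, mul_zero]
          have h4 : IsSquare (g.eval x) := by
            rw [hgx]
            exact hcon x (by rwa [← hfx]) (by rwa [← hfx]) hxc
          rw [(quadraticChar_one_iff_isSquare h2).mpr h4]
          norm_num
        · rw [h]
          norm_num
  have hle : ∑ x : ZMod p, (1 + (quadraticChar (ZMod p) (f.eval x) : ℝ)) *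
      (1 - (quadraticChar (ZMod p) (g.eval x) : ℝ)) ≤ 8 := by
    refine (Finset.sum_le_sum fun x _ => hterm x).trans ?_
    rw [Finset.sum_ite_mem, Finset.univ_inter, Finset.sum_const, nsmul_eq_mul]
    have h5 : (f * g).roots.toFinset.card ≤ 4 := by
      refine (Multiset.toFinset_card_le _).trans ((card_roots' _).trans ?_)
      rw [hfgd]
    have h6 : ((f * g).roots.toFinset.card : ℝ) ≤ 4 := by exact_mod_cast h5
    linarith
  rw [hsum] at hle
  have hp' : (64 : ℝ) < p := by exact_mod_cast hp
  have hsq : Real.sqrt p ^ 2 = p := Real.sq_sqrt (by linarith)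
  have hs8 : 8 < Real.sqrt p := by
    rw [Real.lt_sqrt (by norm_num)]
    linarith
  have a1 := abs_le.mp w1
  have a2 := abs_le.mp w2
  have a3 := abs_le.mp w3
  push_cast at a1 a2 a3
  nlinarith [a1.1, a2.2, a3.2]

end Pool.Agent.H68K
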