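import Mathlib
import Pool.Agent.H68K.Ord
import Pool.Agent.H68K.Wei

/-!
# A residue class of points over `ℚ_p`
-/

set_option autoImplicit false

open Polynomial

namespace Pool.Agent.H68K

variable {p : ℕ} [hp : Fact p.Prime]

lemma norm_eq_one_of_toZMod {x : ℚ_[p]} (hx : ‖x‖ ≤ 1) (h : PadicInt.toZMod (mkZ hx) ≠ 0) :
    ‖x‖ = 1 := by
  by_contra hne
  apply h
  rw [toZMod_eq_zero_iff]
  exact lt_of_le_of_ne hx hne

lemma sqrt_exists (hp2 : p ≠ 2) (F : ℤ_[p]) (hF : PadicInt.toZMod F ≠ 0)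
    (hsq : IsSquare (PadicInt.toZMod F)) : ∃ y : ℤ_[p], y ^ 2 = F := by
  obtain ⟨r, hr⟩ := hsq
  have hr0 : r ≠ 0 := by
    rintro rfl
    rw [mul_zero] at hr
    exact hF hr
  set q : ℤ_[p] := (r.val : ℤ_[p]) with hq
  have hqr : PadicInt.toZMod q = r := by
    rw [hq, map_natCast, ZMod.natCast_zmod_val]
  have h20 : (2 : ZMod p) ≠ 0 := by
    intro h
    have h2 : ((2 : ℕ) : ZMod p) = 0 := by exact_mod_cast h
    rw [ZMod.natCast_eq_zero_iff] at h2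
    exact hp2 ((Nat.prime_dvd_prime_iff_eq hp.out Nat.prime_two).mp h2)
  have e1 : ((X ^ 2 - C F : ℤ_[p][X])).aeval q = q ^ 2 - F := by simp
  have e2 : (derivative (X ^ 2 - C F : ℤ_[p][X])).aeval q = 2 * q := by
    simp
    left; norm_num
  have n1 : ‖q ^ 2 - F‖ < 1 := by
    rw [← toZMod_eq_zero_iff, map_sub, map_pow, hqr, hr]
    ring
  have n2 : ‖2 * q‖ = 1 := by
    by_contra hne
    have hlt : ‖2 * q‖ < 1 := lt_of_le_of_ne (PadicInt.norm_le_one _) hne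
    rw [← toZMod_eq_zero_iff, map_mul, hqr, map_ofNat] at hlt
    exact mul_ne_zero h20 hr0 hlt
  obtain ⟨z, hz, -⟩ := hensels_lemma (p := p) (F := (X ^ 2 - C F : ℤ_[p][X])) (a := q) (by
    rw [e1, e2, n2, one_pow]
    exact n1)
  refine ⟨z, ?_⟩
  simp only [map_sub, map_pow, aeval_X, aeval_C, sub_eq_zero] at hz
  exact hz

theorem exists_class (hp64 : 64 < p) {a b c κ : ℚ_[p]} (ha : ‖a‖ ≤ 1) (hb : ‖b‖ ≤ 1)
    (hc : ‖c‖ ≤ 1) (hκ : ‖κ‖ = 1) (hfc : ‖c ^ 3 + a * c + b‖ = 1) :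
    ∃ (m : ℕ), (∀ x : ℚ_[p], ‖x - m‖ < 1 → ‖x‖ ≤ 1 ∧ ‖x - c‖ = 1 ∧
      ‖x ^ 3 + a * x + b‖ = 1 ∧ (∃ y : ℚ_[p], y ^ 2 = x ^ 3 + a * x + b) ∧
      ¬ IsSquare (κ * (x - c))) := by
  have hp2 : p ≠ 2 := by omega
  set a' : ℤ_[p] := mkZ ha with ha'
  set b' : ℤ_[p] := mkZ hb with hb'
  set c' : ℤ_[p] := mkZ hc with hc'
  set κ' : ℤ_[p] := mkZ hκ.le with hκ'
  have hκ0 : PadicInt.toZMod κ' ≠ 0 := by
    intro h
    rw [toZMod_eq_zero_iff] at h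
    have : ‖κ'‖ = ‖κ‖ := rfl
    rw [this, hκ] at h
    exact lt_irrefl _ h
  have hfc0 : (PadicInt.toZMod c') ^ 3 + (PadicInt.toZMod a') * (PadicInt.toZMod c') +
      (PadicInt.toZMod b') ≠ 0 := by
    rw [← map_pow, ← map_mul, ← map_add, ← map_add]
    intro h
    rw [toZMod_eq_zero_iff] at h
    have : ‖c' ^ 3 + a' * c' + b'‖ = ‖c ^ 3 + a * c + b‖ := rfl
    rw [this, hfc] at h
    exact lt_irrefl _ h
  obtain ⟨r, hr1, hr2, hr3, hr4⟩ := exists_residue hp64 (PadicInt.toZMod a') (PadicInt.toZMod b')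
    (PadicInt.toZMod c') (PadicInt.toZMod κ') hκ0 hfc0
  refine ⟨r.val, fun x hx => ?_⟩
  have hm : ‖((r.val : ℕ) : ℚ_[p])‖ ≤ 1 := Pool.Agent.TH954.unat (L := ℚ_[p]) r.val
  have hx1 : ‖x‖ ≤ 1 := by
    have : x = (x - r.val) + r.val := by ring
    rw [this]
    exact Pool.Agent.TH954.uadd hx.le hm
  set x' : ℤ_[p] := mkZ hx1 with hx'
  have hxr : PadicInt.toZMod x' = r := by
    have h1 : PadicInt.toZMod x' = PadicInt.toZMod (mkZ hm) := by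
      rw [hx', toZMod_mkZ_eq]
      exact hx
    rw [h1]
    have h2 : mkZ hm = ((r.val : ℕ) : ℤ_[p]) := by
      apply Subtype.ext
      rw [coe_mkZ]
      exact (PadicInt.coe_natCast _).symm
    rw [h2, map_natCast, ZMod.natCast_zmod_val]
  have hF : PadicInt.toZMod (x' ^ 3 + a' * x' + b') =
      r ^ 3 + PadicInt.toZMod a' * r + PadicInt.toZMod b' := by
    rw [map_add, map_add, map_mul, map_pow, hxr]
  have hF0 : PadicInt.toZMod (x' ^ 3 + a' * x' + b') ≠ 0 := by rw [hF]; exact hr1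
  have hFn : ‖x ^ 3 + a * x + b‖ = 1 := by
    have h1 : ¬ ‖x' ^ 3 + a' * x' + b'‖ < 1 := by
      rw [← toZMod_eq_zero_iff]; exact hF0
    have h2 : ‖x' ^ 3 + a' * x' + b'‖ ≤ 1 := PadicInt.norm_le_one _
    exact le_antisymm h2 (not_lt.mp h1)
  have hxc : ‖x - c‖ = 1 := by
    have h1 : ¬ ‖x' - c'‖ < 1 := by
      rw [← toZMod_eq_zero_iff, map_sub, hxr, sub_eq_zero]; exact hr3
    have h2 : ‖x' - c'‖ ≤ 1 := PadicInt.norm_le_one _
    exact le_antisymm h2 (not_lt.mp h1)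
  refine ⟨hx1, hxc, hFn, ?_, ?_⟩
  · obtain ⟨y, hy⟩ := sqrt_exists hp2 (x' ^ 3 + a' * x' + b') hF0 (by rw [hF]; exact hr2)
    refine ⟨(y : ℚ_[p]), ?_⟩
    have := congrArg (fun t : ℤ_[p] => (t : ℚ_[p])) hy
    simpa [hx', ha', hb', coe_mkZ] using this
  · rintro ⟨w, hw⟩
    have hwn : ‖w‖ = 1 := by
      have h1 : ‖κ * (x - c)‖ = 1 := by rw [norm_mul, hκ, hxc, one_mul]
      rw [hw, norm_mul] at h1
      nlinarith [norm_nonneg w]
    apply hr4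
    refine ⟨PadicInt.toZMod (mkZ hwn.le), ?_⟩
    rw [← hxr, ← map_sub, ← map_mul, ← map_mul]
    congr 1
    apply Subtype.ext
    exact hw

end Pool.Agent.H68K
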