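import Mathlib
import Pool.Agent.H68K.Pad

/-!
# Torsion points with the same reduction
-/

set_option autoImplicit false
set_option linter.unusedSectionVars false

open WeierstrassCurve Pool.Agent.TH954 Pool.Agent.Y718

namespace Pool.Agent.H68K

variable {L : Type} [NormedField L] [IsUltrametricDist L] [DecidableEq L] {W : WeierstrassCurve L}

/-- points very near the origin have infinite order -/
theorem no_torsion_gen (hW : SI W) (h2 : (2 : L) ≠ 0) {p : ℕ} (hp : p.Prime)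
    (hl : ∀ l : ℕ, l.Prime → (p : ℝ)⁻¹ ≤ ‖(l : L)‖) {x y : L} (h : W.toAffine.Nonsingular x y)
    (hx : (p : ℝ) ^ 2 ≤ ‖x‖) {n : ℕ} (hn : n ≠ 0) : n • (Affine.Point.some x y h) ≠ 0 := by
  intro h0
  have hp1 : (1 : ℝ) < p := by exact_mod_cast hp.one_lt
  have hx1 : 1 < ‖x‖ := lt_of_lt_of_le (one_lt_pow₀ hp1 two_ne_zero) hx
  set T := Affine.Point.some x y h with hT
  have hfin : IsOfFinAddOrder T :=
    isOfFinAddOrder_iff_nsmul_eq_zero.mpr ⟨n, Nat.pos_of_ne_zero hn, h0⟩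
  have hm0 : 0 < addOrderOf T := hfin.addOrderOf_pos
  have hm1 : addOrderOf T ≠ 1 := by
    intro h1
    rw [AddMonoid.addOrderOf_eq_one_iff] at h1
    exact Affine.Point.some_ne_zero h h1
  obtain ⟨ℓ, hℓ, k, hk⟩ := Nat.exists_prime_and_dvd hm1
  have hk0 : k ≠ 0 := by rintro rfl; omega
  have hkT : k • T ≠ 0 := by
    intro hh
    have := addOrderOf_dvd_iff_nsmul_eq_zero.mpr hh
    have h3 := Nat.le_of_dvd (Nat.pos_of_ne_zero hk0) this
    rw [hk] at h3
    have := hℓ.two_le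
    nlinarith [Nat.pos_of_ne_zero hk0]
  have hℓT : ℓ • (k • T) = 0 := by
    rw [smul_smul, ← hk, addOrderOf_nsmul_eq_zero]
  have hBT : Big ‖x‖ T := big_some.mpr le_rfl
  have hB := hW.big_nsmul h2 hx1 hBT k
  generalize hT' : k • T = T' at hkT hℓT hB
  match T' with
  | .zero => exact hkT rfl
  | .some x' y' h' =>
    have hx'x := big_some.mp hB
    have hx' : 1 < ‖x'‖ := hx1.trans_le hx'x
    have hz := hW.norm_z h' hx'
    have hadd := zp_nsmul hW h2 hx' (big_some.mpr le_rfl : Big ‖x'‖ (Affine.Point.some x' y' h')) ℓ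
    rw [hℓT, zp_zero, zero_sub, norm_neg, norm_mul] at hadd
    have hzz : zp (Affine.Point.some x' y' h') = x' / y' := rfl
    rw [hzz] at hadd
    have h3 : (‖(ℓ : L)‖ * ‖x'‖) ^ 2 ≤ 1 := by
      calc (‖(ℓ : L)‖ * ‖x'‖) ^ 2 = ‖(ℓ : L)‖ ^ 2 * ‖x'‖ ^ 2 * (‖x' / y'‖ ^ 2 * ‖x'‖) := by
            rw [hz]; ring
        _ = (‖(ℓ : L)‖ * ‖x' / y'‖) ^ 2 * ‖x'‖ ^ 3 := by ring
        _ ≤ 1 := hadd
    have h4 : ‖(ℓ : L)‖ * ‖x'‖ ≤ 1 := by
      nlinarith [mul_nonneg (norm_nonneg (ℓ : L)) (norm_nonneg x')]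
    have hp0 : (0 : ℝ) < p := by linarith
    have : (p : ℝ)⁻¹ * (p : ℝ) ^ 2 ≤ 1 :=
      le_trans (mul_le_mul (hl ℓ hℓ) (hx.trans hx'x) (by positivity) (norm_nonneg _)) h4
    have h9 : (p : ℝ)⁻¹ * (p : ℝ) ^ 2 = p := by field_simp
    rw [h9] at this
    linarith

/-- two different torsion points with abscissas which are near each other, and a unit as ordinate -/
theorem not_both_torsion (hW : SI W) (h2 : ‖(2 : L)‖ = 1) {p : ℕ} (hp : p.Prime)
    (hl : ∀ l : ℕ, l.Prime → (p : ℝ)⁻¹ ≤ ‖(l : L)‖) {u0 z0 u1 z1 : L}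
    (h0 : W.toAffine.Nonsingular u0 z0) (h1 : W.toAffine.Nonsingular u1 z1)
    (hu0 : ‖u0‖ ≤ 1) (hu1 : ‖u1‖ ≤ 1) (hne : u0 ≠ u1) (hu : ‖u0 - u1‖ ≤ (p : ℝ)⁻¹)
    (hz0 : ‖z0‖ = 1) {n0 n1 : ℕ} (hn0 : n0 ≠ 0) (hn1 : n1 ≠ 0)
    (e0 : n0 • Affine.Point.some u0 z0 h0 = 0) (e1 : n1 • Affine.Point.some u1 z1 h1 = 0) :
    False := by
  have hp1 : (1 : ℝ) < p := by exact_mod_cast hp.one_lt
  have hpi : (p : ℝ)⁻¹ < 1 := inv_lt_one_of_one_lt₀ hp1
  have h20 : (2 : L) ≠ 0 := by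
    intro h; rw [h, norm_zero] at h2; norm_num at h2
  have hz1 := hW.norm_y_le_one h1 hu1
  -- the case that the ordinates are near each other
  have key : ∀ (v : L) (hv : W.toAffine.Nonsingular u1 v), ‖z0 - v‖ < 1 →
      n1 • Affine.Point.some u1 v hv = 0 → False := by
    intro v hv hvz hnv
    have hB := big_of_close hW h2 (n1 := h0) (n2 := hv) (r := (p : ℝ)⁻¹)
      (by positivity) hpi hu0 hu1 hz0 hu hvz
    have hD : (n0 * n1) • (Affine.Point.some u0 z0 h0 - Affine.Point.some u1 v hv) = 0 := by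
      have a0 : (n0 * n1) • Affine.Point.some u0 z0 h0 = 0 := by
        rw [mul_comm, mul_smul, e0, nsmul_zero]
      have a1 : (n0 * n1) • Affine.Point.some u1 v hv = 0 := by
        rw [mul_smul, hnv, nsmul_zero]
      rw [nsmul_sub, a0, a1, sub_zero]
    generalize hT : Affine.Point.some u0 z0 h0 - Affine.Point.some u1 v hv = T at hB hD
    match T with
    | .zero =>
      have : Affine.Point.some u0 z0 h0 = Affine.Point.some u1 v hv := sub_eq_zero.mp hT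
      rw [Affine.Point.some.injEq] at this
      exact hne this.1
    | .some X Y n =>
      have hX := big_some.mp hB
      have : 1 / ((p : ℝ)⁻¹) ^ 2 = (p : ℝ) ^ 2 := by
        rw [inv_pow, one_div, inv_inv]
      rw [this] at hX
      exact no_torsion_gen hW h20 hp hl n hX (mul_ne_zero hn0 hn1) hD
  have hprod : ‖(z0 - z1) * (z0 + z1)‖ < 1 := by
    have eq0 := hW.toShort.eqn h0
    have eq1 := hW.toShort.eqn h1
    have : (z0 - z1) * (z0 + z1) = (u0 - u1) * (u0 ^ 2 + u0 * u1 + u1 ^ 2 + W.a₄) := by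
      linear_combination eq0 - eq1
    rw [this, norm_mul]
    have hb : ‖u0 ^ 2 + u0 * u1 + u1 ^ 2 + W.a₄‖ ≤ 1 := by
      refine uadd (uadd (uadd ?_ ?_) ?_) hW.ha
      · rw [norm_pow]; exact pow_le_one₀ (norm_nonneg _) hu0
      · exact umul hu0 hu1
      · rw [norm_pow]; exact pow_le_one₀ (norm_nonneg _) hu1
    calc _ ≤ ‖u0 - u1‖ * 1 := by gcongr
      _ < 1 := by rw [mul_one]; exact hu.trans_lt hpi
  rw [norm_mul] at hprod
  by_cases hc : ‖z0 - z1‖ < 1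
  · exact key z1 h1 hc e1
  · rw [not_lt] at hc
    have hc2 : ‖z0 + z1‖ < 1 := by
      by_contra h
      rw [not_lt] at h
      nlinarith
    refine key (-z1) (hW.toShort.nonsing_neg h1) ?_ ?_
    · rw [sub_neg_eq_add]; exact hc2
    · rw [← hW.toShort.neg_some h1, neg_nsmul, e1, neg_zero]

end Pool.Agent.H68K
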