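import Mathlib
import Pool.Agent.H68K.Lft
import Pool.Agent.H68K.Two
import Pool.Agent.TH954.STor

/-!
# The main arithmetic step
-/

set_option autoImplicit false
set_option linter.unusedSectionVars false

open WeierstrassCurve Pool.Agent.TH954 Pool.Agent.Y718 Pool.Agent.TH942

namespace Pool.Agent.H68K

section base

variable {K L : Type} [Field K]

lemma base_sw [Field L] [Algebra K L] (a b : K) :
    (sw a b).baseChange L = sw (algebraMap K L a) (algebraMap K L b) := by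
  simp [WeierstrassCurve.baseChange, WeierstrassCurve.map, sw]

lemma short_base [Field L] [Algebra K L] (a b : K) : Short ((sw a b).baseChange L) :=
  ⟨map_zero _, map_zero _, map_zero _⟩

lemma si_base [NormedField L] [Algebra K L] {a b : K} (ha : ‖algebraMap K L a‖ ≤ 1)
    (hb : ‖algebraMap K L b‖ ≤ 1) : SI ((sw a b).baseChange L) :=
  { short_base a b with ha := ha, hb := hb }

lemma ns_base [Field L] [CharZero L] [Algebra K L] {a b : K}
    (hD : 4 * a ^ 3 + 27 * b ^ 2 ≠ 0) {x y : L}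
    (h : y ^ 2 = x ^ 3 + algebraMap K L a * x + algebraMap K L b) :
    ((sw a b).baseChange L).toAffine.Nonsingular x y := by
  rw [base_sw]
  apply sw_nonsing _ h
  intro h0
  apply hD
  apply (algebraMap K L).injective
  rw [map_zero, ← h0]
  simp only [map_add, map_mul, map_pow, map_ofNat]

lemma eqn_base [Field L] [Algebra K L] {a b : K} {x y : L}
    (h : ((sw a b).baseChange L).toAffine.Nonsingular x y) :
    y ^ 2 = x ^ 3 + algebraMap K L a * x + algebraMap K L b := (short_base a b).eqn h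

end base

section padic

variable {p : ℕ} [hp : Fact p.Prime] {K : Type} [Field K] [Algebra K ℚ_[p]]

open scoped Classical in
/-- points over `ℚ_p` -/
theorem padic_points (hp2 : p ≠ 2) {a b : K} (ha : ‖algebraMap K ℚ_[p] a‖ ≤ 1)
    (hb : ‖algebraMap K ℚ_[p] b‖ ≤ 1) (hD : ‖algebraMap K ℚ_[p] (4 * a ^ 3 + 27 * b ^ 2)‖ = 1)
    {α₀ α₁ : K} (hα : α₀ ≠ α₁) (h0 : α₀ ^ 3 + a * α₀ + b = 0) (h1 : α₁ ^ 3 + a * α₁ + b = 0)
    (P : ((sw a b).baseChange ℚ_[p]).toAffine.Point) (hP : ∀ n : ℕ, n ≠ 0 → n • P ≠ 0)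
    {x0 y0 : ℚ_[p]} (n0 : ((sw a b).baseChange ℚ_[p]).toAffine.Nonsingular x0 y0)
    (hx0 : ‖x0‖ ≤ 1) (hy0 : ‖y0‖ = 1) :
    ∃ (x₁ y₁ x₂ y₂ : ℚ_[p]) (n₁ : ((sw a b).baseChange ℚ_[p]).toAffine.Nonsingular x₁ y₁)
      (n₂ : ((sw a b).baseChange ℚ_[p]).toAffine.Nonsingular x₂ y₂) (n m : ℕ), n ≠ 0 ∧ m ≠ 0 ∧
      ‖x₁ - x0‖ < 1 ∧ ‖x₂ - x0‖ < 1 ∧ x₁ ≠ x₂ ∧
      n • Affine.Point.some x₁ y₁ n₁ = n • P ∧ n • Affine.Point.some x₂ y₂ n₂ = n • (m • P) := by
  have hW : SI ((sw a b).baseChange ℚ_[p]) := si_base ha hb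
  have hD0 : 4 * a ^ 3 + 27 * b ^ 2 ≠ 0 := by
    intro h; rw [h, map_zero, norm_zero] at hD; norm_num at hD
  have hDn : ‖4 * ((sw a b).baseChange ℚ_[p]).a₄ ^ 3 + 27 * ((sw a b).baseChange ℚ_[p]).a₆ ^ 2‖ = 1 := by
    rw [← hD]
    congr 1
    simp only [map_add, map_mul, map_pow, map_ofNat]
    rfl
  have h20 : (2 : ℚ_[p]) ≠ 0 := two_ne_zero
  have htor : ∀ α : K, α ^ 3 + a * α + b = 0 →
      ∃ n : ((sw a b).baseChange ℚ_[p]).toAffine.Nonsingular (algebraMap K ℚ_[p] α) 0,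
        2 • Affine.Point.some _ _ n = 0 := by
    intro α hα
    have hn : ((sw a b).baseChange ℚ_[p]).toAffine.Nonsingular (algebraMap K ℚ_[p] α) 0 := by
      apply ns_base hD0
      rw [← map_pow, ← map_mul, ← map_add, ← map_add, hα, map_zero]
      ring
    refine ⟨hn, ?_⟩
    have h3 : -Affine.Point.some _ _ hn = Affine.Point.some _ _ hn := by
      rw [hW.toShort.neg_some hn, Affine.Point.some.injEq]
      exact ⟨rfl, neg_zero⟩
    rw [two_nsmul]
    nth_rewrite 1 [← h3]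
    exact neg_add_cancel _
  obtain ⟨m0, t0⟩ := htor α₀ h0
  obtain ⟨m1, t1⟩ := htor α₁ h1
  have h12 : Affine.Point.some _ _ m0 ≠ Affine.Point.some _ _ m1 := by
    intro h
    rw [Affine.Point.some.injEq] at h
    exact hα ((algebraMap K ℚ_[p]).injective h.1)
  have hord := fun T => exists_order hW hp2 hDn (Affine.Point.some_ne_zero m0)
    (Affine.Point.some_ne_zero m1) h12 t0 t1 T
  set R0 := Affine.Point.some x0 y0 n0 with hR0
  obtain ⟨nR, hnR1, hnRp, hGR⟩ := hord R0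
  obtain ⟨nP, hnP1, hnPp, hGP⟩ := hord P
  set n := nR * nP with hn
  have hn1 : 1 ≤ n := Nat.one_le_iff_ne_zero.mpr (mul_ne_zero (by omega) (by omega))
  have hnp : ¬ p ∣ n := by
    intro hd
    rcases (Nat.Prime.dvd_mul hp.out).mp hd with h | h
    · exact hnRp h
    · exact hnPp h
  have hG1 : G 1 (n • R0) := by
    have : n • R0 = nP • (nR • R0) := by rw [smul_smul, hn, mul_comm]
    rw [this]
    exact G_nsmul hW le_rfl hGR _
  have hG2 : G 1 (n • P) := by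
    have : n • P = nR • (nP • P) := by rw [smul_smul, hn]
    rw [this]
    exact G_nsmul hW le_rfl hGP _
  have hGj : ∀ j : ℕ, G 1 (n • (R0 - j • P)) := by
    intro j
    have : n • (R0 - j • P) = n • R0 + -(j • (n • P)) := by
      rw [nsmul_sub, smul_smul n j P, smul_smul j n P, mul_comm n j, sub_eq_add_neg]
    rw [this]
    exact G_add hW le_rfl hG1 (G_neg hW (G_nsmul hW le_rfl hG2 j))
  obtain ⟨x₁, y₁, n₁, hx₁, hy₁, e₁⟩ := exists_division hW hp2 hn1 hnp P n0 hx0 hy0 (by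
    have := hGj 1
    rwa [one_smul] at this)
  obtain ⟨x₂, y₂, n₂, hx₂, hy₂, e₂⟩ := exists_division hW hp2 hn1 hnp ((1 + n) • P) n0 hx0 hy0
    (hGj (1 + n))
  refine ⟨x₁, y₁, x₂, y₂, n₁, n₂, n, 1 + n, by omega, by omega, hx₁, hx₂, ?_, e₁, e₂⟩
  intro hx
  subst hx
  have q1 := hW.toShort.eqn n₁
  have q2 := hW.toShort.eqn n₂
  have hyy : y₁ = y₂ := by
    rcases sq_eq_sq_iff_eq_or_eq_neg.mp (q1.trans q2.symm) with h | h
    · exact h
    · exfalso
      have h3 : ‖2 * y0‖ < 1 := by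
        have : 2 * y0 = -((y₁ - y0) + (y₂ - y0)) := by rw [h]; ring
        rw [this, norm_neg]
        exact uadd_lt hy₁ hy₂
      rw [norm_mul, norm_two hp2, hy0, one_mul] at h3
      exact lt_irrefl _ h3
  subst hyy
  have h5 : n • P = n • ((1 + n) • P) := e₁.symm.trans e₂
  have h6 : (n * n) • P = 0 := by
    have h7 : n • ((1 + n) • P) = n • P + (n * n) • P := by
      rw [add_smul, one_smul, nsmul_add, smul_smul]
    rw [h7] at h5
    exact (left_eq_add.mp h5)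
  exact hP (n * n) (mul_ne_zero (by omega) (by omega)) h6

end padic

section main

variable {p : ℕ} [hp : Fact p.Prime] {K k : Type} [Field K] [CharZero K] [Algebra K ℚ_[p]]
  [Field k] [CharZero k] [IsAlgClosed k] [Algebra K k]

lemma norm_base (x : K) : ‖algebraMap K (PadicAlgCl p) x‖ = ‖algebraMap K ℚ_[p] x‖ := by
  rw [IsScalarTower.algebraMap_apply K ℚ_[p] (PadicAlgCl p)]
  exact PadicAlgCl.norm_extends p _

lemma norm_prime (l : ℕ) (hl : l.Prime) : (p : ℝ)⁻¹ ≤ ‖(l : PadicAlgCl p)‖ := by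
  have h0 : ‖(l : PadicAlgCl p)‖ = ‖(l : ℚ_[p])‖ := by
    have h1 := PadicAlgCl.norm_extends p (l : ℚ_[p])
    rw [← h1]
    congr 1
  rw [h0]
  have hp1 : (1 : ℝ) < p := by exact_mod_cast hp.out.one_lt
  by_cases hpl : l = p
  · rw [hpl, Padic.norm_p]
  · have : ‖(l : ℚ_[p])‖ = 1 := by
      have hnd : ¬ p ∣ l := by
        intro hd
        exact hpl ((Nat.prime_dvd_prime_iff_eq hp.out hl).mp hd).symm
      have h7 : ¬ ‖((l : ℤ) : ℚ_[p])‖ < 1 := by
        rw [Padic.norm_intCast_lt_one_iff]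
        exact_mod_cast hnd
      have h8 := Padic.norm_int_le_one (p := p) (l : ℤ)
      have : ((l : ℤ) : ℚ_[p]) = (l : ℚ_[p]) := by push_cast; rfl
      rw [this] at h7 h8
      exact le_antisymm h8 (not_lt.mp h7)
    rw [this]
    exact inv_le_one_of_one_le₀ hp1.le

open scoped Classical in
/-- the point of the second curve over a point of the first one -/
theorem candidate {a₁ b₁ a₂ b₂ c e ρ κ : K} (hD2 : 4 * a₂ ^ 3 + 27 * b₂ ^ 2 ≠ 0)
    (hκ0 : κ ≠ 0)
    (hid : ∀ x : k, (algebraMap K k e * (x - algebraMap K k c) + algebraMap K k ρ) ^ 3 +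
      algebraMap K k a₂ * (algebraMap K k e * (x - algebraMap K k c) + algebraMap K k ρ) *
        (x - algebraMap K k c) ^ 2 + algebraMap K k b₂ * (x - algebraMap K k c) ^ 3 =
      algebraMap K k κ * (x ^ 3 + algebraMap K k a₁ * x + algebraMap K k b₁))
    (ψ : k →ₐ[K] PadicAlgCl p) {x y : k} (hxy : y ^ 2 = x ^ 3 + algebraMap K k a₁ * x + algebraMap K k b₁)
    {ξ η : ℚ_[p]} (hx : ψ x = algebraMap ℚ_[p] (PadicAlgCl p) ξ)
    (hy : ψ y = algebraMap ℚ_[p] (PadicAlgCl p) η) (hη : ‖η‖ = 1)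
    (hκn : ‖algebraMap K ℚ_[p] κ‖ = 1)
    (hξc : ‖ξ - algebraMap K ℚ_[p] c‖ = 1)
    (hns : ¬ IsSquare (algebraMap K ℚ_[p] κ * (ξ - algebraMap K ℚ_[p] c))) :
    x ≠ algebraMap K k c ∧ ∃ (u z : k) (n : ((sw a₂ b₂).baseChange k).toAffine.Nonsingular u z),
      u * (x - algebraMap K k c) = algebraMap K k e * (x - algebraMap K k c) + algebraMap K k ρ ∧
      ψ u = algebraMap ℚ_[p] (PadicAlgCl p)
        (algebraMap K ℚ_[p] e + algebraMap K ℚ_[p] ρ / (ξ - algebraMap K ℚ_[p] c)) ∧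
      ‖ψ z‖ = 1 ∧
      ((∀ N : ℕ, N ≠ 0 → ∀ T : ((sw a₂ b₂).baseChange K).toAffine.Point,
        N • Affine.Point.some u z n ≠ pm (sw a₂ b₂) (Algebra.ofId K k) T) ∨
        ∃ N : ℕ, N ≠ 0 ∧ N • pm (sw a₂ b₂) ψ (Affine.Point.some u z n) = 0) := by
  have hψK : ∀ r : K, ψ (algebraMap K k r) = algebraMap ℚ_[p] (PadicAlgCl p)
      (algebraMap K ℚ_[p] r) := by
    intro r
    rw [ψ.commutes, ← IsScalarTower.algebraMap_apply K ℚ_[p] (PadicAlgCl p)]
  have hξ0 : ξ - algebraMap K ℚ_[p] c ≠ 0 := by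
    intro h; rw [h, norm_zero] at hξc; norm_num at hξc
  have hη0 : η ≠ 0 := by
    intro h; rw [h, norm_zero] at hη; norm_num at hη
  have hxc : x ≠ algebraMap K k c := by
    intro h
    apply hξ0
    apply (algebraMap ℚ_[p] (PadicAlgCl p)).injective
    rw [map_sub, map_zero, ← hx, ← hψK, h, sub_self]
  have hxc0 : x - algebraMap K k c ≠ 0 := sub_ne_zero.mpr hxc
  refine ⟨hxc, ?_⟩
  set u : k := algebraMap K k e + algebraMap K k ρ / (x - algebraMap K k c) with hu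
  have huc : u * (x - algebraMap K k c) =
      algebraMap K k e * (x - algebraMap K k c) + algebraMap K k ρ := by
    rw [hu]; field_simp
  obtain ⟨z, hz⟩ := IsAlgClosed.exists_pow_nat_eq
    (u ^ 3 + algebraMap K k a₂ * u + algebraMap K k b₂) (n := 2) (by norm_num)
  have n : ((sw a₂ b₂).baseChange k).toAffine.Nonsingular u z := ns_base hD2 hz
  have hψu : ψ u = algebraMap ℚ_[p] (PadicAlgCl p)
      (algebraMap K ℚ_[p] e + algebraMap K ℚ_[p] ρ / (ξ - algebraMap K ℚ_[p] c)) := by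
    rw [hu, map_add, map_div₀, map_sub, hψK, hψK, hψK, hx, map_add, map_div₀, map_sub]
  -- the square of `z`
  have hz2 : z ^ 2 * (x - algebraMap K k c) ^ 3 = algebraMap K k κ * y ^ 2 := by
    rw [hz, hxy, ← hid x, ← huc]; ring
  have hz3 : (ψ z) ^ 2 * (algebraMap ℚ_[p] (PadicAlgCl p) (ξ - algebraMap K ℚ_[p] c)) ^ 3 =
      algebraMap ℚ_[p] (PadicAlgCl p) (algebraMap K ℚ_[p] κ * η ^ 2) := by
    have := congrArg ψ hz2
    rw [map_mul, map_pow, map_pow, map_sub, map_mul, map_pow, hψK, hψK, hx, hy] at this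
    rw [map_sub, map_mul, map_pow]
    exact this
  have hψz : ‖ψ z‖ = 1 := by
    have h1 := congrArg norm hz3
    rw [norm_mul, norm_pow, norm_pow] at h1
    have e1 : ‖algebraMap ℚ_[p] (PadicAlgCl p) (ξ - algebraMap K ℚ_[p] c)‖ = 1 := by
      rw [← hξc]; exact PadicAlgCl.norm_extends p _
    have e2 : ‖algebraMap ℚ_[p] (PadicAlgCl p) (algebraMap K ℚ_[p] κ * η ^ 2)‖ = 1 := by
      have : ‖algebraMap K ℚ_[p] κ * η ^ 2‖ = 1 := by
        rw [norm_mul, norm_pow, hκn, hη]; norm_num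
      rw [← this]; exact PadicAlgCl.norm_extends p _
    rw [e1, e2, one_pow, mul_one] at h1
    exact (pow_eq_one_iff_of_nonneg (norm_nonneg _) two_ne_zero).mp h1
  refine ⟨u, z, n, huc, hψu, hψz, ?_⟩
  by_contra hcon
  push Not at hcon
  obtain ⟨⟨N, hN, T, hT⟩, hnt⟩ := hcon
  -- an automorphism which changes the sign of `ψ z`
  have hnr : ψ z ∉ Set.range (algebraMap ℚ_[p] (PadicAlgCl p)) := by
    rintro ⟨w, hw⟩
    rw [← hw, ← map_pow, ← map_pow, ← map_mul] at hz3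
    have h1 := (algebraMap ℚ_[p] (PadicAlgCl p)).injective hz3
    apply hns
    refine ⟨w * (ξ - algebraMap K ℚ_[p] c) ^ 2 / η, ?_⟩
    rw [div_mul_div_comm, eq_div_iff (mul_ne_zero hη0 hη0)]
    linear_combination (-(ξ - algebraMap K ℚ_[p] c)) * h1
  rw [InfiniteGalois.mem_range_algebraMap_iff_fixed] at hnr
  push Not at hnr
  obtain ⟨τ, hτ⟩ := hnr
  have hτz : τ (ψ z) = -ψ z := by
    have h1 : (τ (ψ z)) ^ 2 = (ψ z) ^ 2 := by
      have h2 := congrArg τ hz3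
      rw [map_mul, map_pow, map_pow, AlgEquiv.commutes, AlgEquiv.commutes] at h2
      have h3 : (algebraMap ℚ_[p] (PadicAlgCl p) (ξ - algebraMap K ℚ_[p] c)) ^ 3 ≠ 0 := by
        apply pow_ne_zero
        rwa [Ne, map_eq_zero]
      exact mul_right_cancel₀ h3 (h2.trans hz3.symm)
    rcases sq_eq_sq_iff_eq_or_eq_neg.mp h1 with h | h
    · exact absurd h hτ
    · exact h
  let τ' : PadicAlgCl p →ₐ[K] PadicAlgCl p :=
    (τ : PadicAlgCl p →ₐ[ℚ_[p]] PadicAlgCl p).restrictScalars K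
  set q := pm (sw a₂ b₂) ψ (Affine.Point.some u z n) with hq
  have hτq : pm (sw a₂ b₂) τ' q = -q := by
    obtain ⟨h', e1⟩ := pm_some (E := sw a₂ b₂) ψ n
    rw [hq, e1]
    obtain ⟨h'', e2⟩ := pm_some (E := sw a₂ b₂) τ' h'
    rw [e2, (short_base a₂ b₂).neg_some, Affine.Point.some.injEq]
    refine ⟨?_, hτz⟩
    change τ (ψ u) = ψ u
    rw [hψu, AlgEquiv.commutes]
  have hT1 : N • q = pm (sw a₂ b₂) ψ (pm (sw a₂ b₂) (Algebra.ofId K k) T) := by
    rw [hq, ← map_nsmul, hT]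
  have hT2 : pm (sw a₂ b₂) τ' (N • q) = N • q := by
    have hcomp : (τ'.comp ψ).comp (Algebra.ofId K k) = ψ.comp (Algebra.ofId K k) := by
      apply AlgHom.ext
      intro r
      change τ (ψ (algebraMap K k r)) = ψ (algebraMap K k r)
      rw [hψK, AlgEquiv.commutes]
    rw [hT1, pm_pm, pm_pm, hcomp, ← pm_pm]
  rw [map_nsmul, hτq] at hT2
  apply hnt (N + N) (by omega)
  have h3 : N • q + N • q = 0 := by
    nth_rewrite 1 [← hT2]
    rw [neg_nsmul, neg_add_cancel]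
  rw [add_smul]
  exact h3

end main

end Pool.Agent.H68K
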