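import Mathlib
import Pool.Agent.Y718.TorFree
import Pool.Agent.TH942.Par

/-!
# Zero-cycles on the surface `w² = (x³ + a₁ x + b₁) (u³ + a₂ u + b₂)`
-/

set_option autoImplicit false

open Polynomial WeierstrassCurve Pool.Agent.TH942 Pool.Agent.TH954

namespace Pool.Agent.H68K

section defs

variable {k : Type} [Field k]

/-- Zero-cycles: formal sums of points. -/
abbrev Cyc (k : Type) : Type := (k × k × k) →₀ ℤ

/-- The zero-cycle `[(x, u, w)]`. -/
noncomputable def pt (x u w : k) : Cyc k := Finsupp.single (x, u, w) 1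

/-- The zero-cycle `[(x, u, w)] - [(x, u, -w)]`. -/
noncomputable def dl (x u w : k) : Cyc k := pt x u w - pt x u (-w)

/-- the divisors of lines on the curves `u` constant -/
def Hor (a₁ b₁ a₂ b₂ : k) : Set (Cyc k) :=
  {z | ∃ u l n x₁ x₂ x₃ : k,
    (C l * X + C n) ^ 2 - C (u ^ 3 + a₂ * u + b₂) * (X ^ 3 + C a₁ * X + C b₁) =
      -C (u ^ 3 + a₂ * u + b₂) * ((X - C x₁) * (X - C x₂) * (X - C x₃)) ∧
    z = dl x₁ u (l * x₁ + n) + dl x₂ u (l * x₂ + n) + dl x₃ u (l * x₃ + n)}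

/-- the divisors of lines on the curves `x` constant -/
def Ver (a₁ b₁ a₂ b₂ : k) : Set (Cyc k) :=
  {z | ∃ x l n u₁ u₂ u₃ : k,
    (C l * X + C n) ^ 2 - C (x ^ 3 + a₁ * x + b₁) * (X ^ 3 + C a₂ * X + C b₂) =
      -C (x ^ 3 + a₁ * x + b₁) * ((X - C u₁) * (X - C u₂) * (X - C u₃)) ∧
    z = dl x u₁ (l * u₁ + n) + dl x u₂ (l * u₂ + n) + dl x u₃ (l * u₃ + n)}

/-- the differences of two points on a rational curve -/
def Rcu (a₁ b₁ a₂ b₂ : k) : Set (Cyc k) :=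
  {z | ∃ (A B W D : k[X]) (s t : k),
    W ^ 2 = (A ^ 3 + C a₁ * A * D ^ 2 + C b₁ * D ^ 3) * (B ^ 3 + C a₂ * B * D ^ 2 + C b₂ * D ^ 3) ∧
    D.eval s ≠ 0 ∧ D.eval t ≠ 0 ∧
    z = pt (A.eval s / D.eval s) (B.eval s / D.eval s) (W.eval s / D.eval s ^ 3) -
      pt (A.eval t / D.eval t) (B.eval t / D.eval t) (W.eval t / D.eval t ^ 3)}

/-- the differences of two fibres of the projection `(x, u, w) ↦ (x, u)` -/
def Fib (a₁ b₁ a₂ b₂ : k) : Set (Cyc k) :=
  {z | ∃ x u w x' u' w' : k, w ^ 2 = (x ^ 3 + a₁ * x + b₁) * (u ^ 3 + a₂ * u + b₂) ∧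
    w' ^ 2 = (x' ^ 3 + a₁ * x' + b₁) * (u' ^ 3 + a₂ * u' + b₂) ∧
    z = pt x u w + pt x u (-w) - pt x' u' w' - pt x' u' (-w')}

/-- a group of cycles which are rationally equivalent to zero -/
noncomputable def Rat (a₁ b₁ a₂ b₂ : k) : AddSubgroup (Cyc k) :=
  AddSubgroup.closure (Hor a₁ b₁ a₂ b₂ ∪ Ver a₁ b₁ a₂ b₂ ∪ Rcu a₁ b₁ a₂ b₂ ∪ Fib a₁ b₁ a₂ b₂)

lemma dl_neg (x u w : k) : dl x u (-w) = -dl x u w := by
  unfold dl
  rw [neg_neg, neg_sub]

lemma short_sw (a b : k) : Short (sw a b) := ⟨rfl, rfl, rfl⟩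

lemma line_identity {a b l ν x1 x2 X3 : k} (c1 : x1 + x2 + X3 = l ^ 2)
    (c2 : x1 * x2 + x1 * X3 + x2 * X3 = a - 2 * l * ν) (c3 : x1 * x2 * X3 = ν ^ 2 - b) (s : k) :
    (C (s * l) * X + C (s * ν)) ^ 2 - C (s ^ 2) * (X ^ 3 + C a * X + C b) =
      -C (s ^ 2) * ((X - C x1) * (X - C x2) * (X - C X3)) := by
  have h1 := congrArg (C (R := k)) c1
  have h2 := congrArg (C (R := k)) c2
  have h3 := congrArg (C (R := k)) c3
  simp only [C_add, C_mul, C_pow, C_sub, C_ofNat] at h1 h2 h3 ⊢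
  linear_combination (- C s ^ 2 * X ^ 2) * h1 + (C s ^ 2 * X) * h2 - C s ^ 2 * h3

end defs

section homs

variable {k : Type} [Field k] [DecidableEq k] {a₁ b₁ a₂ b₂ : k}

/-- the class of `[(t, u, s z)] - [(t, u, -s z)]` -/
noncomputable def fv (a₁ b₁ a₂ b₂ t s : k) :
    (sw a₂ b₂).toAffine.Point → Cyc k ⧸ Rat a₁ b₁ a₂ b₂
  | .zero => 0
  | .some u z _ => QuotientAddGroup.mk (dl t u (s * z))

/-- the class of `[(x, u, z y)] - [(x, u, -z y)]` -/
noncomputable def fh (a₁ b₁ a₂ b₂ u z : k) :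
    (sw a₁ b₁).toAffine.Point → Cyc k ⧸ Rat a₁ b₁ a₂ b₂
  | .zero => 0
  | .some x y _ => QuotientAddGroup.mk (dl x u (z * y))

lemma fv_add (h2 : (2 : k) ≠ 0) {t s : k} (hs : s ^ 2 = t ^ 3 + a₁ * t + b₁)
    (Q1 Q2 : (sw a₂ b₂).toAffine.Point) :
    fv a₁ b₁ a₂ b₂ t s (Q1 + Q2) = fv a₁ b₁ a₂ b₂ t s Q1 + fv a₁ b₁ a₂ b₂ t s Q2 := by
  match Q1, Q2 with
  | .zero, Q2 =>
    have : (Affine.Point.zero : (sw a₂ b₂).toAffine.Point) + Q2 = Q2 := zero_add Q2
    rw [this]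
    exact (zero_add _).symm
  | .some x1 y1 n1, .zero =>
    have : Affine.Point.some x1 y1 n1 + (Affine.Point.zero : (sw a₂ b₂).toAffine.Point) =
      Affine.Point.some x1 y1 n1 := add_zero _
    rw [this]
    exact (add_zero _).symm
  | .some x1 y1 n1, .some x2 y2 n2 =>
    generalize hT3 : Affine.Point.some x1 y1 n1 + Affine.Point.some x2 y2 n2 = T3
    match T3 with
    | .zero =>
      have h0 : Affine.Point.some x2 y2 n2 = -Affine.Point.some x1 y1 n1 := by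
        have : Affine.Point.some x1 y1 n1 + Affine.Point.some x2 y2 n2 = 0 := hT3
        exact (neg_eq_of_add_eq_zero_right this).symm
      rw [(short_sw a₂ b₂).neg_some, Affine.Point.some.injEq] at h0
      obtain ⟨rfl, rfl⟩ := h0
      simp only [fv]
      rw [mul_neg, dl_neg, QuotientAddGroup.mk_neg, add_neg_cancel]
    | .some X3 Y3 n3 =>
      obtain ⟨l, ν, a1, a2, a3, c1, c2, c3⟩ := Pool.Agent.Y718.chordAdd (short_sw a₂ b₂) h2 hT3
      simp only [fv]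
      rw [← QuotientAddGroup.mk_add, QuotientAddGroup.eq]
      apply AddSubgroup.subset_closure
      left; left; right
      refine ⟨t, s * l, s * ν, x1, x2, X3, ?_, ?_⟩
      · rw [← hs]
        exact line_identity c1 c2 c3 s
      · have e1 : s * y1 = s * l * x1 + s * ν := by rw [a1]; ring
        have e2 : s * y2 = s * l * x2 + s * ν := by rw [a2]; ring
        have e3 : s * Y3 = -(s * l * X3 + s * ν) := by
          have : Y3 = -(l * X3 + ν) := by rw [← a3, neg_neg]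
          rw [this]; ring
        rw [e1, e2, e3, dl_neg]
        abel

lemma fh_add (h2 : (2 : k) ≠ 0) {u z : k} (hz : z ^ 2 = u ^ 3 + a₂ * u + b₂)
    (Q1 Q2 : (sw a₁ b₁).toAffine.Point) :
    fh a₁ b₁ a₂ b₂ u z (Q1 + Q2) = fh a₁ b₁ a₂ b₂ u z Q1 + fh a₁ b₁ a₂ b₂ u z Q2 := by
  match Q1, Q2 with
  | .zero, Q2 =>
    have : (Affine.Point.zero : (sw a₁ b₁).toAffine.Point) + Q2 = Q2 := zero_add Q2
    rw [this]
    exact (zero_add _).symm
  | .some x1 y1 n1, .zero =>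
    have : Affine.Point.some x1 y1 n1 + (Affine.Point.zero : (sw a₁ b₁).toAffine.Point) =
      Affine.Point.some x1 y1 n1 := add_zero _
    rw [this]
    exact (add_zero _).symm
  | .some x1 y1 n1, .some x2 y2 n2 =>
    generalize hT3 : Affine.Point.some x1 y1 n1 + Affine.Point.some x2 y2 n2 = T3
    match T3 with
    | .zero =>
      have h0 : Affine.Point.some x2 y2 n2 = -Affine.Point.some x1 y1 n1 := by
        have : Affine.Point.some x1 y1 n1 + Affine.Point.some x2 y2 n2 = 0 := hT3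
        exact (neg_eq_of_add_eq_zero_right this).symm
      rw [(short_sw a₁ b₁).neg_some, Affine.Point.some.injEq] at h0
      obtain ⟨rfl, rfl⟩ := h0
      simp only [fh]
      rw [mul_neg, dl_neg, QuotientAddGroup.mk_neg, add_neg_cancel]
    | .some X3 Y3 n3 =>
      obtain ⟨l, ν, a1, a2, a3, c1, c2, c3⟩ := Pool.Agent.Y718.chordAdd (short_sw a₁ b₁) h2 hT3
      simp only [fh]
      rw [← QuotientAddGroup.mk_add, QuotientAddGroup.eq]
      apply AddSubgroup.subset_closure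
      left; left; left
      refine ⟨u, z * l, z * ν, x1, x2, X3, ?_, ?_⟩
      · rw [← hz]
        exact line_identity c1 c2 c3 z
      · have e1 : z * y1 = z * l * x1 + z * ν := by rw [a1]; ring
        have e2 : z * y2 = z * l * x2 + z * ν := by rw [a2]; ring
        have e3 : z * Y3 = -(z * l * X3 + z * ν) := by
          have : Y3 = -(l * X3 + ν) := by rw [← a3, neg_neg]
          rw [this]; ring
        rw [e1, e2, e3, dl_neg]
        abel

/-- the homomorphism on `E₂` -/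
noncomputable def hv (a₁ b₁ a₂ b₂ : k) (h2 : (2 : k) ≠ 0) {t s : k}
    (hs : s ^ 2 = t ^ 3 + a₁ * t + b₁) :
    (sw a₂ b₂).toAffine.Point →+ Cyc k ⧸ Rat a₁ b₁ a₂ b₂ :=
  AddMonoidHom.mk' (fv a₁ b₁ a₂ b₂ t s) (fv_add h2 hs)

/-- the homomorphism on `E₁` -/
noncomputable def hh (a₁ b₁ a₂ b₂ : k) (h2 : (2 : k) ≠ 0) {u z : k}
    (hz : z ^ 2 = u ^ 3 + a₂ * u + b₂) :
    (sw a₁ b₁).toAffine.Point →+ Cyc k ⧸ Rat a₁ b₁ a₂ b₂ :=
  AddMonoidHom.mk' (fh a₁ b₁ a₂ b₂ u z) (fh_add h2 hz)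

/-- transfer of a relation between multiples -/
lemma transfer (h2 : (2 : k) ≠ 0) {t s x y u z : k} {n : (sw a₁ b₁).toAffine.Nonsingular t s}
    {n' : (sw a₁ b₁).toAffine.Nonsingular x y} (hz : z ^ 2 = u ^ 3 + a₂ * u + b₂) {M M' : ℤ}
    (hM : M • (Affine.Point.some x y n') = M' • (Affine.Point.some t s n))
    (hr : dl x u (y * z) ∈ Rat a₁ b₁ a₂ b₂) : M' • dl t u (s * z) ∈ Rat a₁ b₁ a₂ b₂ := by
  have h1 : hh a₁ b₁ a₂ b₂ h2 hz (Affine.Point.some x y n') = 0 := by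
    change QuotientAddGroup.mk (dl x u (z * y)) = _
    rw [mul_comm z y, QuotientAddGroup.eq_zero_iff]
    exact hr
  have h3 := congrArg (hh a₁ b₁ a₂ b₂ h2 hz) hM
  rw [map_zsmul, map_zsmul, h1, smul_zero] at h3
  have h4 : hh a₁ b₁ a₂ b₂ h2 hz (Affine.Point.some t s n) =
    QuotientAddGroup.mk (dl t u (z * s)) := rfl
  rw [h4, ← QuotientAddGroup.mk_zsmul] at h3
  rw [mul_comm s z]
  exact (QuotientAddGroup.eq_zero_iff _).mp h3.symm

end homs

section rational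

variable {k : Type} [Field k] [IsAlgClosed k] {a₁ b₁ a₂ b₂ : k}

/-- the relation from the rational curve -/
lemma mem_of_moebius {c e ρ κ : k} (hκ : κ ≠ 0)
    (hid : ∀ x : k, (e * (x - c) + ρ) ^ 3 + a₂ * (e * (x - c) + ρ) * (x - c) ^ 2 +
      b₂ * (x - c) ^ 3 = κ * (x ^ 3 + a₁ * x + b₁)) {x y u z : k} (hx : x ≠ c)
    (hy : y ^ 2 = x ^ 3 + a₁ * x + b₁) (hz : z ^ 2 = u ^ 3 + a₂ * u + b₂)
    (hu : u * (x - c) = e * (x - c) + ρ) : dl x u (y * z) ∈ Rat a₁ b₁ a₂ b₂ := by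
  have hxc : x - c ≠ 0 := sub_ne_zero.mpr hx
  obtain ⟨s, hs⟩ := IsAlgClosed.exists_pow_nat_eq ((x - c) / κ) (n := 2) (by norm_num)
  have hs' : κ * s ^ 2 = x - c := by rw [hs]; field_simp
  have hs0 : s ≠ 0 := by
    rintro rfl
    apply hxc
    rw [← hs']; ring
  -- the polynomial identity
  have hpid : (C e * (X - C c) + C ρ) ^ 3 + C a₂ * (C e * (X - C c) + C ρ) * (X - C c) ^ 2 +
      C b₂ * (X - C c) ^ 3 = C κ * (X ^ 3 + C a₁ * X + C b₁) := by
    have : Infinite k := IsAlgClosed.instInfinite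
    apply Polynomial.funext
    intro r
    simpa using hid r
  set Bp : k[X] := C e * X ^ 2 + C (ρ / κ) with hB
  set Xp : k[X] := C c + C κ * X ^ 2 with hXp
  set F : k[X] := Xp ^ 3 + C a₁ * Xp + C b₁ with hF
  have hcomp : (C κ) ^ 2 * (Bp ^ 3 + C a₂ * Bp * (X ^ 2) ^ 2 + C b₂ * (X ^ 2) ^ 3) = F := by
    have h1 := congrArg (fun q : k[X] => q.comp Xp) hpid
    simp only [add_comp, mul_comp, pow_comp, sub_comp, X_comp, C_comp] at h1
    have hXc : Xp - C c = C κ * X ^ 2 := by rw [hXp]; ring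
    have hBk : C e * (Xp - C c) + C ρ = C κ * Bp := by
      rw [hXc, hB]
      have : (C ρ : k[X]) = C κ * C (ρ / κ) := by rw [← C_mul]; congr 1; field_simp
      rw [this]; ring
    rw [hBk, hXc] at h1
    have h2 : (C κ : k[X]) ≠ 0 := by rwa [Ne, C_eq_zero]
    apply mul_left_cancel₀ h2
    rw [hF]
    linear_combination h1
  have hinv : (C κ⁻¹ : k[X]) * C κ = 1 := by rw [← C_mul, inv_mul_cancel₀ hκ, C_1]
  have hgen : pt (x) (u) (κ⁻¹ * (x ^ 3 + a₁ * x + b₁) / s ^ 3) -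
      pt x u (-(κ⁻¹ * (x ^ 3 + a₁ * x + b₁) / s ^ 3)) ∈ Rat a₁ b₁ a₂ b₂ := by
    apply AddSubgroup.subset_closure
    left; right
    refine ⟨Xp * X ^ 2, Bp, C κ⁻¹ * F * X ^ 3, X ^ 2, s, -s, ?_, ?_, ?_, ?_⟩
    · have h3 : Bp ^ 3 + C a₂ * Bp * (X ^ 2) ^ 2 + C b₂ * (X ^ 2) ^ 3 = (C κ⁻¹) ^ 2 * F := by
        rw [← hcomp]
        linear_combination (-(C κ⁻¹ * C κ + 1) *
          (Bp ^ 3 + C a₂ * Bp * (X ^ 2) ^ 2 + C b₂ * (X ^ 2) ^ 3)) * hinv
      rw [h3, hF]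
      ring
    · simpa using hs0
    · simpa using hs0
    · have e1 : (Xp * X ^ 2).eval s / (X ^ 2 : k[X]).eval s = x := by
        simp only [hXp, eval_mul, eval_add, eval_C, eval_pow, eval_X]
        rw [hs']; field_simp; ring
      have e1' : (Xp * X ^ 2).eval (-s) / (X ^ 2 : k[X]).eval (-s) = x := by
        simp only [hXp, eval_mul, eval_add, eval_C, eval_pow, eval_X, neg_sq]
        rw [hs']; field_simp; ring
      have hu' : u = (e * s ^ 2 + ρ / κ) / s ^ 2 := by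
        rw [← hs'] at hu
        field_simp
        have h5 : κ * s ^ 2 * u = κ * (e * s ^ 2) + ρ := by linear_combination hu
        linear_combination h5
      have e2 : Bp.eval s / (X ^ 2 : k[X]).eval s = u := by
        simp only [hB, eval_mul, eval_add, eval_C, eval_pow, eval_X]
        rw [hu']
      have e2' : Bp.eval (-s) / (X ^ 2 : k[X]).eval (-s) = u := by
        simp only [hB, eval_mul, eval_add, eval_C, eval_pow, eval_X, neg_sq]
        rw [hu']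
      have hF1 : F.eval s = x ^ 3 + a₁ * x + b₁ := by
        simp only [hF, hXp, eval_mul, eval_add, eval_C, eval_pow, eval_X]
        rw [hs']; ring
      have hF2 : F.eval (-s) = x ^ 3 + a₁ * x + b₁ := by
        simp only [hF, hXp, eval_mul, eval_add, eval_C, eval_pow, eval_X, neg_sq]
        rw [hs']; ring
      have e3 : (C κ⁻¹ * F * X ^ 3).eval s / (X ^ 2 : k[X]).eval s ^ 3 =
          κ⁻¹ * (x ^ 3 + a₁ * x + b₁) / s ^ 3 := by
        simp only [eval_mul, eval_C, eval_pow, eval_X, hF1]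
        field_simp
      have e3' : (C κ⁻¹ * F * X ^ 3).eval (-s) / (X ^ 2 : k[X]).eval (-s) ^ 3 =
          -(κ⁻¹ * (x ^ 3 + a₁ * x + b₁) / s ^ 3) := by
        simp only [eval_mul, eval_C, eval_pow, eval_X, hF2]
        field_simp
      rw [e1, e1', e2, e2', e3, e3']
  have hw : (y * z) ^ 2 = (κ⁻¹ * (x ^ 3 + a₁ * x + b₁) / s ^ 3) ^ 2 := by
    have h6 : (u ^ 3 + a₂ * u + b₂) * (x - c) ^ 3 = κ * (x ^ 3 + a₁ * x + b₁) := by
      rw [← hid x, ← hu]; ring
    have h7 : z ^ 2 * (κ * s ^ 2) ^ 3 = κ * y ^ 2 := by rw [hs', hz, hy]; exact h6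
    rw [← hy]
    field_simp
    have h8 : κ * (z ^ 2 * κ ^ 2 * s ^ 6) = κ * y ^ 2 := by linear_combination h7
    have h9 := mul_left_cancel₀ hκ h8
    linear_combination (y ^ 2) * h9
  rcases sq_eq_sq_iff_eq_or_eq_neg.mp hw with h | h
  · rw [h]; exact hgen
  · rw [h, dl_neg]
    exact neg_mem hgen

end rational

end Pool.Agent.H68K
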