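import Mathlib
import Pool.Agent.N530.LS.A2

/-!
# Embeddings of finitely generated fields in `ℚ_p`
-/

set_option autoImplicit false

namespace Pool.Agent.H68K

/-- Cassels' embedding theorem for a field with an embedding in `ℂ`. -/
theorem exists_padic {k : Type} [Field k] (i : k →+* ℂ) (S : Finset k) (B : ℕ) :
    ∃ (p : ℕ) (_ : Fact p.Prime), B < p ∧ ∃ σ : Subfield.closure (S : Set k) →+* ℚ_[p],
      ∀ x : Subfield.closure (S : Set k), (x : k) ∈ S → (x : k) ≠ 0 → ‖σ x‖ = 1 := by
  classical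
  obtain ⟨p, hp, hB, σ, hσ⟩ := Pool.Agent.N530.LS.stmA2 (S.image i) B
  have hmap : ∀ x : Subfield.closure (S : Set k), i x ∈ Subfield.closure ((S.image i : Finset ℂ) : Set ℂ) := by
    intro x
    rw [Finset.coe_image, ← RingHom.map_field_closure]
    exact Subfield.mem_map.mpr ⟨x, x.2, rfl⟩
  let j : Subfield.closure (S : Set k) →+* Subfield.closure ((S.image i : Finset ℂ) : Set ℂ) :=
    (i.comp (Subfield.closure (S : Set k)).subtype).codRestrict _ hmap
  refine ⟨p, hp, hB, σ.comp j, fun x hx hx0 => ?_⟩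
  apply hσ (j x)
  · exact Finset.mem_image.mpr ⟨x, hx, rfl⟩
  · intro h
    exact hx0 (i.injective (h.trans (map_zero i).symm))

end Pool.Agent.H68K
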