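import Mathlib
import Pool.Agent.H68K.Ari

/-!
# The main arithmetic theorem
-/

set_option autoImplicit false
set_option linter.unusedSectionVars false

open WeierstrassCurve Pool.Agent.TH954 Pool.Agent.Y718 Pool.Agent.TH942

namespace Pool.Agent.H68K

variable {p : ℕ} [hp : Fact p.Prime] {K k : Type} [Field K] [CharZero K] [Algebra K ℚ_[p]]
  [Field k] [CharZero k] [IsAlgClosed k] [Algebra K k]

open scoped Classical in
/-- division points over `ℚ_p` are algebraic -/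
lemma exists_alg {a b : K} (hD : 4 * a ^ 3 + 27 * b ^ 2 ≠ 0) (ψ : k →ₐ[K] PadicAlgCl p)
    (P : ((sw a b).baseChange K).toAffine.Point) {x y : ℚ_[p]}
    {n₀ : ((sw a b).baseChange ℚ_[p]).toAffine.Nonsingular x y} {n m : ℕ} (hn : n ≠ 0)
    (h : n • Affine.Point.some x y n₀ = n • (m • pm (sw a b) (Algebra.ofId K ℚ_[p]) P)) :
    ∃ (x' y' : k) (n' : ((sw a b).baseChange k).toAffine.Nonsingular x' y'),
      ψ x' = algebraMap ℚ_[p] (PadicAlgCl p) x ∧ ψ y' = algebraMap ℚ_[p] (PadicAlgCl p) y ∧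
      n • Affine.Point.some x' y' n' = (n * m) • pm (sw a b) (Algebra.ofId K k) P := by
  let ι : ℚ_[p] →ₐ[K] PadicAlgCl p := IsScalarTower.toAlgHom K ℚ_[p] (PadicAlgCl p)
  set T := Affine.Point.some x y n₀ - m • pm (sw a b) (Algebra.ofId K ℚ_[p]) P with hT
  have hnT : n • T = 0 := by rw [hT, nsmul_sub, h, sub_self]
  obtain ⟨T0, hT0⟩ := torsion_mem hD ψ n (Nat.one_le_iff_ne_zero.mpr hn) (pm (sw a b) ι T) (by
    rw [← map_nsmul, hnT, map_zero])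
  have hcomm : ψ.comp (Algebra.ofId K k) = ι.comp (Algebra.ofId K ℚ_[p]) := by
    apply AlgHom.ext
    intro r
    change ψ (algebraMap K k r) = ι (algebraMap K ℚ_[p] r)
    rw [ψ.commutes, ι.commutes]
  set P' := T0 + m • pm (sw a b) (Algebra.ofId K k) P with hP'
  have h1 : pm (sw a b) ψ P' = pm (sw a b) ι (Affine.Point.some x y n₀) := by
    rw [hP', map_add, map_nsmul, hT0, hT, map_sub, map_nsmul, pm_pm, pm_pm, hcomm]
    abel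
  have h2 : n • P' = (n * m) • pm (sw a b) (Algebra.ofId K k) P := by
    have h3 : n • T0 = 0 := by
      apply pm_injective (E := sw a b) ψ
      rw [map_nsmul, hT0, ← map_nsmul, hnT, map_zero, map_zero]
    rw [hP', nsmul_add, h3, zero_add, smul_smul]
  obtain ⟨g, hg⟩ := pm_some (E := sw a b) ι n₀
  rw [hg] at h1
  generalize P' = P'' at h1 h2
  match P'' with
  | .zero =>
    exfalso
    have h0 : pm (sw a b) ψ (Affine.Point.zero) = 0 := map_zero _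
    rw [h0] at h1
    exact Affine.Point.some_ne_zero g h1.symm
  | .some x' y' n' =>
    obtain ⟨g', hg'⟩ := pm_some (E := sw a b) ψ n'
    rw [hg', Affine.Point.some.injEq] at h1
    exact ⟨x', y', n', h1.1, h1.2, h2⟩

open scoped Classical in
/-- two different points over the same residue class -/
lemma two_points (hp64 : 64 < p) (ψ : k →ₐ[K] PadicAlgCl p) {a b : K} {m : ℕ}
    (ha : ‖algebraMap K ℚ_[p] a‖ ≤ 1)
    (hb : ‖algebraMap K ℚ_[p] b‖ ≤ 1) (hD : ‖algebraMap K ℚ_[p] (4 * a ^ 3 + 27 * b ^ 2)‖ = 1)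
    {α₀ α₁ : K} (hα : α₀ ≠ α₁) (h0 : α₀ ^ 3 + a * α₀ + b = 0) (h1 : α₁ ^ 3 + a * α₁ + b = 0)
    (hm : ∀ x : ℚ_[p], ‖x - m‖ < 1 → ‖x‖ ≤ 1 ∧
      ‖x ^ 3 + algebraMap K ℚ_[p] a * x + algebraMap K ℚ_[p] b‖ = 1 ∧
      ∃ y : ℚ_[p], y ^ 2 = x ^ 3 + algebraMap K ℚ_[p] a * x + algebraMap K ℚ_[p] b)
    (P : ((sw a b).baseChange K).toAffine.Point) :
    ∃ (ξ₁ ξ₂ : ℚ_[p]), ξ₁ ≠ ξ₂ ∧ ‖ξ₁ - m‖ < 1 ∧ ‖ξ₂ - m‖ < 1 ∧ ∀ ξ, (ξ = ξ₁ ∨ ξ = ξ₂) →
      ∃ (η : ℚ_[p]) (x y : k) (n : ((sw a b).baseChange k).toAffine.Nonsingular x y) (M M' : ℕ),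
        M' ≠ 0 ∧ M • Affine.Point.some x y n = M' • pm (sw a b) (Algebra.ofId K k) P ∧
        η ^ 2 = ξ ^ 3 + algebraMap K ℚ_[p] a * ξ + algebraMap K ℚ_[p] b ∧
        ψ x = algebraMap ℚ_[p] (PadicAlgCl p) ξ ∧ ψ y = algebraMap ℚ_[p] (PadicAlgCl p) η := by
  have hD0 : 4 * a ^ 3 + 27 * b ^ 2 ≠ 0 := by
    intro h; rw [h, map_zero, norm_zero] at hD; norm_num at hD
  have hψK : ∀ r : K, ψ (algebraMap K k r) = algebraMap ℚ_[p] (PadicAlgCl p)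
      (algebraMap K ℚ_[p] r) := by
    intro r
    rw [ψ.commutes, ← IsScalarTower.algebraMap_apply K ℚ_[p] (PadicAlgCl p)]
  by_cases htor : ∃ n : ℕ, n ≠ 0 ∧ n • P = 0
  · -- torsion points
    obtain ⟨n, hn, hnP⟩ := htor
    have hpn : ‖(p : ℚ_[p])‖ < 1 := Padic.norm_p_lt_one
    refine ⟨m, (m : ℚ_[p]) + p, ?_, by simp, by simpa using hpn, ?_⟩
    · intro h
      have h3 : (p : ℚ_[p]) = 0 := by linear_combination -h
      have : (p : ℕ) = 0 := by exact_mod_cast h3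
      omega
    · intro ξ hξ
      obtain ⟨j, hj⟩ : ∃ j : ℕ, ξ = (j : ℚ_[p]) := by
        rcases hξ with h | h
        · exact ⟨m, h⟩
        · exact ⟨m + p, by rw [h]; push_cast; ring⟩
      have hξm : ‖ξ - m‖ < 1 := by
        rcases hξ with h | h
        · rw [h]; simp
        · rw [h]; simpa using hpn
      obtain ⟨-, -, η, hη⟩ := hm ξ hξm
      obtain ⟨y, hy⟩ := IsAlgClosed.exists_pow_nat_eq
        ((j : k) ^ 3 + algebraMap K k a * j + algebraMap K k b) (n := 2) (by norm_num)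
      have hψj : ψ (j : k) = algebraMap ℚ_[p] (PadicAlgCl p) ξ := by
        rw [hj, map_natCast, map_natCast]
      have hψy : (ψ y) ^ 2 = (algebraMap ℚ_[p] (PadicAlgCl p) η) ^ 2 := by
        rw [← map_pow, ← map_pow, hy, hη, map_add, map_add, map_mul, map_pow, hψK, hψK, hψj,
          map_add, map_add, map_mul, map_pow]
      have hP0 : n • pm (sw a b) (Algebra.ofId K k) P = 0 := by
        rw [← map_nsmul, hnP, map_zero]
      rcases sq_eq_sq_iff_eq_or_eq_neg.mp hψy with h | h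
      · exact ⟨η, j, y, ns_base hD0 hy, 0, n, hn, by rw [hP0, zero_smul], hη, hψj, h⟩
      · exact ⟨-η, j, y, ns_base hD0 hy, 0, n, hn, by rw [hP0, zero_smul], by rw [neg_sq, hη],
          hψj, by rw [h, map_neg]⟩
  · push Not at htor
    have hPp : ∀ n : ℕ, n ≠ 0 → n • pm (sw a b) (Algebra.ofId K ℚ_[p]) P ≠ 0 := by
      intro n hn h
      apply htor n hn
      apply pm_injective (E := sw a b) (Algebra.ofId K ℚ_[p])
      rw [map_nsmul, h, map_zero]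
    obtain ⟨hm1, hm2, y0, hy0⟩ := hm m (by simp)
    have hy0n : ‖y0‖ = 1 := by
      have h3 : ‖y0‖ ^ 2 = 1 := by rw [← norm_pow, hy0, hm2]
      exact (pow_eq_one_iff_of_nonneg (norm_nonneg _) two_ne_zero).mp h3
    obtain ⟨x₁, y₁, x₂, y₂, n₁, n₂, n, l, hn, hl, hx₁, hx₂, hne, e₁, e₂⟩ :=
      padic_points (by omega) ha hb hD hα h0 h1 _ hPp (ns_base hD0 hy0) hm1 hy0n
    refine ⟨x₁, x₂, hne, hx₁, hx₂, ?_⟩
    intro ξ hξ
    rcases hξ with rfl | rfl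
    · obtain ⟨x', y', n', c1, c2, c3⟩ := exists_alg hD0 ψ P (m := 1) hn (by rw [one_smul]; exact e₁)
      exact ⟨y₁, x', y', n', n, n * 1, by omega, c3, eqn_base n₁, c1, c2⟩
    · obtain ⟨x', y', n', c1, c2, c3⟩ := exists_alg hD0 ψ P (m := l) hn e₂
      exact ⟨y₂, x', y', n', n, n * l, mul_ne_zero hn hl, c3, eqn_base n₂, c1, c2⟩

open scoped Classical in
/-- **The main arithmetic theorem.** -/
theorem main_arith [Algebra.IsAlgebraic K k] (hp64 : 64 < p) {a₁ b₁ a₂ b₂ c e ρ κ α₀ α₁ : K}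
    (ha₁ : ‖algebraMap K ℚ_[p] a₁‖ ≤ 1) (hb₁ : ‖algebraMap K ℚ_[p] b₁‖ ≤ 1)
    (ha₂ : ‖algebraMap K ℚ_[p] a₂‖ ≤ 1) (hb₂ : ‖algebraMap K ℚ_[p] b₂‖ ≤ 1)
    (hc : ‖algebraMap K ℚ_[p] c‖ ≤ 1) (he : ‖algebraMap K ℚ_[p] e‖ ≤ 1)
    (hρ : ‖algebraMap K ℚ_[p] ρ‖ ≤ 1) (hρ0 : ρ ≠ 0)
    (hD1 : ‖algebraMap K ℚ_[p] (4 * a₁ ^ 3 + 27 * b₁ ^ 2)‖ = 1)
    (hD2 : 4 * a₂ ^ 3 + 27 * b₂ ^ 2 ≠ 0)
    (hκ : ‖algebraMap K ℚ_[p] κ‖ = 1)
    (hfc : ‖algebraMap K ℚ_[p] (c ^ 3 + a₁ * c + b₁)‖ = 1)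
    (hid : ∀ x : k, (algebraMap K k e * (x - algebraMap K k c) + algebraMap K k ρ) ^ 3 +
      algebraMap K k a₂ * (algebraMap K k e * (x - algebraMap K k c) + algebraMap K k ρ) *
        (x - algebraMap K k c) ^ 2 + algebraMap K k b₂ * (x - algebraMap K k c) ^ 3 =
      algebraMap K k κ * (x ^ 3 + algebraMap K k a₁ * x + algebraMap K k b₁))
    (hα : α₀ ≠ α₁) (h0 : α₀ ^ 3 + a₁ * α₀ + b₁ = 0) (h1 : α₁ ^ 3 + a₁ * α₁ + b₁ = 0)
    (P : ((sw a₁ b₁).baseChange K).toAffine.Point) :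
    ∃ (x y u z : k) (n₁ : ((sw a₁ b₁).baseChange k).toAffine.Nonsingular x y)
      (n₂ : ((sw a₂ b₂).baseChange k).toAffine.Nonsingular u z) (M M' : ℕ), M' ≠ 0 ∧
      M • Affine.Point.some x y n₁ = M' • pm (sw a₁ b₁) (Algebra.ofId K k) P ∧
      x ≠ algebraMap K k c ∧
      u * (x - algebraMap K k c) = algebraMap K k e * (x - algebraMap K k c) + algebraMap K k ρ ∧
      ∀ N : ℕ, N ≠ 0 → ∀ T : ((sw a₂ b₂).baseChange K).toAffine.Point,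
        N • Affine.Point.some u z n₂ ≠ pm (sw a₂ b₂) (Algebra.ofId K k) T := by
  have hp2 : p ≠ 2 := by omega
  let ψ : k →ₐ[K] PadicAlgCl p := IsAlgClosed.lift
  have hκ0 : κ ≠ 0 := by
    intro h; rw [h, map_zero, norm_zero] at hκ; norm_num at hκ
  rw [map_add, map_add, map_mul, map_pow] at hfc
  obtain ⟨m, hm⟩ := exists_class hp64 ha₁ hb₁ hc hκ hfc
  obtain ⟨ξ₁, ξ₂, hne, hξ₁, hξ₂, hex⟩ := two_points hp64 ψ ha₁ hb₁ hD1 hα h0 h1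
    (fun x hx => ⟨(hm x hx).1, (hm x hx).2.2.1, (hm x hx).2.2.2.1⟩) P
  have hcand : ∀ ξ : ℚ_[p], (ξ = ξ₁ ∨ ξ = ξ₂) →
      ∃ (x y u z : k) (n₁ : ((sw a₁ b₁).baseChange k).toAffine.Nonsingular x y)
        (n₂ : ((sw a₂ b₂).baseChange k).toAffine.Nonsingular u z) (M M' : ℕ), M' ≠ 0 ∧
        M • Affine.Point.some x y n₁ = M' • pm (sw a₁ b₁) (Algebra.ofId K k) P ∧
        x ≠ algebraMap K k c ∧
        u * (x - algebraMap K k c) = algebraMap K k e * (x - algebraMap K k c) + algebraMap K k ρ ∧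
        ψ u = algebraMap ℚ_[p] (PadicAlgCl p)
          (algebraMap K ℚ_[p] e + algebraMap K ℚ_[p] ρ / (ξ - algebraMap K ℚ_[p] c)) ∧
        ‖ψ z‖ = 1 ∧
        ((∀ N : ℕ, N ≠ 0 → ∀ T : ((sw a₂ b₂).baseChange K).toAffine.Point,
          N • Affine.Point.some u z n₂ ≠ pm (sw a₂ b₂) (Algebra.ofId K k) T) ∨
          ∃ N : ℕ, N ≠ 0 ∧ N • pm (sw a₂ b₂) ψ (Affine.Point.some u z n₂) = 0) := by
    intro ξ hξ
    obtain ⟨η, x, y, n, M, M', hM', hMM, hη, hψx, hψy⟩ := hex ξ hξ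
    have hξm : ‖ξ - m‖ < 1 := by
      rcases hξ with h | h
      · rw [h]; exact hξ₁
      · rw [h]; exact hξ₂
    obtain ⟨-, k2, k3, -, k5⟩ := hm ξ hξm
    have hηn : ‖η‖ = 1 := by
      have h3 : ‖η‖ ^ 2 = 1 := by rw [← norm_pow, hη, k3]
      exact (pow_eq_one_iff_of_nonneg (norm_nonneg _) two_ne_zero).mp h3
    obtain ⟨hxc, u, z, n₂, g1, g2, g3, g4⟩ := candidate hD2 hκ0 hid ψ (eqn_base n) hψx hψy hηn hκ
      k2 k5
    exact ⟨x, y, u, z, n, n₂, M, M', hM', hMM, hxc, g1, g2, g3, g4⟩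
  obtain ⟨x, y, u, z, n₁, n₂, M, M', r1, r2, r3, r4, r5, r6, r7⟩ := hcand ξ₁ (Or.inl rfl)
  rcases r7 with r7 | ⟨N₁, hN₁, r7⟩
  · exact ⟨x, y, u, z, n₁, n₂, M, M', r1, r2, r3, r4, r7⟩
  obtain ⟨x', y', u', z', n₁', n₂', L, L', s1, s2, s3, s4, s5, s6, s7⟩ := hcand ξ₂ (Or.inr rfl)
  rcases s7 with s7 | ⟨N₂, hN₂, s7⟩
  · exact ⟨x', y', u', z', n₁', n₂', L, L', s1, s2, s3, s4, s7⟩
  exfalso
  obtain ⟨h', e1⟩ := pm_some (E := sw a₂ b₂) ψ n₂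
  obtain ⟨h'', e2⟩ := pm_some (E := sw a₂ b₂) ψ n₂'
  rw [e1] at r7
  rw [e2] at s7
  have hW : SI ((sw a₂ b₂).baseChange (PadicAlgCl p)) := by
    apply si_base
    · rw [norm_base]; exact ha₂
    · rw [norm_base]; exact hb₂
  have h2n : ‖(2 : PadicAlgCl p)‖ = 1 := by
    have h3 := PadicAlgCl.norm_extends p (2 : ℚ_[p])
    rw [norm_two hp2] at h3
    rw [← h3]
    congr 1
  obtain ⟨-, k1, -⟩ := hm ξ₁ hξ₁
  obtain ⟨-, k2, -⟩ := hm ξ₂ hξ₂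
  have z1 : ξ₁ - algebraMap K ℚ_[p] c ≠ 0 := by
    intro h; rw [h, norm_zero] at k1; norm_num at k1
  have z2 : ξ₂ - algebraMap K ℚ_[p] c ≠ 0 := by
    intro h; rw [h, norm_zero] at k2; norm_num at k2
  set c' := algebraMap K ℚ_[p] c with hc'
  set e' := algebraMap K ℚ_[p] e with he'
  set ρ' := algebraMap K ℚ_[p] ρ with hρ'
  have hρ'0 : ρ' ≠ 0 := by
    rw [hρ']; rwa [Ne, map_eq_zero]
  have hdiff : (e' + ρ' / (ξ₁ - c')) - (e' + ρ' / (ξ₂ - c')) =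
      ρ' * (ξ₂ - ξ₁) / ((ξ₁ - c') * (ξ₂ - c')) := by
    field_simp
    ring
  have hnn : ∀ ξ : ℚ_[p], ‖ξ - c'‖ = 1 → ‖e' + ρ' / (ξ - c')‖ ≤ 1 := by
    intro ξ h
    apply uadd he
    rw [norm_div, h, div_one]
    exact hρ
  have hext : ∀ r : ℚ_[p], ‖algebraMap ℚ_[p] (PadicAlgCl p) r‖ = ‖r‖ :=
    fun r => PadicAlgCl.norm_extends p r
  refine not_both_torsion hW h2n hp.out norm_prime h' h'' ?_ ?_ ?_ ?_ r6 hN₁ hN₂ r7 s7
  · rw [r5, hext]; exact hnn _ k1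
  · rw [s5, hext]; exact hnn _ k2
  · rw [r5, s5]
    intro h
    have h3 := (algebraMap ℚ_[p] (PadicAlgCl p)).injective h
    rw [← sub_eq_zero, hdiff] at h3
    have h4 : ρ' * (ξ₂ - ξ₁) / ((ξ₁ - c') * (ξ₂ - c')) ≠ 0 :=
      div_ne_zero (mul_ne_zero hρ'0 (sub_ne_zero.mpr hne.symm)) (mul_ne_zero z1 z2)
    exact h4 h3
  · rw [r5, s5, ← map_sub, hext, hdiff, norm_div, norm_mul, norm_mul, k1, k2, mul_one, div_one]
    have h5 : ‖ξ₂ - ξ₁‖ < 1 := by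
      have : ξ₂ - ξ₁ = (ξ₂ - m) - (ξ₁ - m) := by ring
      rw [this]
      exact usub_lt hξ₂ hξ₁
    calc ‖ρ'‖ * ‖ξ₂ - ξ₁‖ ≤ 1 * (p : ℝ)⁻¹ :=
          mul_le_mul hρ (norm_le_inv h5) (norm_nonneg _) zero_le_one
      _ = (p : ℝ)⁻¹ := one_mul _

end Pool.Agent.H68K
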