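import Mathlib

/-!
# A Möbius transformation which matches the roots of two cubics, but not the points at infinity
-/

set_option autoImplicit false

namespace Pool.Agent.H68K

variable {k : Type} [Field k]

/-- the three pairs are on a hyperbola `(β - e) (α - c) = ρ` -/
def Hyp (α₀ α₁ α₂ β₀ β₁ β₂ : k) : Prop :=
  ∃ c e ρ : k, ρ ≠ 0 ∧ (β₀ - e) * (α₀ - c) = ρ ∧ (β₁ - e) * (α₁ - c) = ρ ∧ (β₂ - e) * (α₂ - c) = ρ

lemma hyp_of_det {α₀ α₁ α₂ β₀ β₁ β₂ : k} (hα₁ : α₀ ≠ α₁) (hα₂ : α₀ ≠ α₂) (hα₃ : α₁ ≠ α₂)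
    (hβ₁ : β₀ ≠ β₁) (hβ₂ : β₀ ≠ β₂) (hβ₃ : β₁ ≠ β₂)
    (hD : (β₁ - β₀) * (α₂ - α₀) - (β₂ - β₀) * (α₁ - α₀) ≠ 0) : Hyp α₀ α₁ α₂ β₀ β₁ β₂ := by
  set D := (β₁ - β₀) * (α₂ - α₀) - (β₂ - β₀) * (α₁ - α₀) with hDdef
  set c := ((α₁ * β₁ - α₀ * β₀) * (α₂ - α₀) - (α₂ * β₂ - α₀ * β₀) * (α₁ - α₀)) / D with hc
  set e := ((β₁ - β₀) * (α₂ * β₂ - α₀ * β₀) - (β₂ - β₀) * (α₁ * β₁ - α₀ * β₀)) / D with he
  have hcD : c * D = (α₁ * β₁ - α₀ * β₀) * (α₂ - α₀) - (α₂ * β₂ - α₀ * β₀) * (α₁ - α₀) := by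
    rw [hc]; field_simp
  have heD : e * D = (β₁ - β₀) * (α₂ * β₂ - α₀ * β₀) - (β₂ - β₀) * (α₁ * β₁ - α₀ * β₀) := by
    rw [he]; field_simp
  have h1 : c * (β₁ - β₀) + e * (α₁ - α₀) = α₁ * β₁ - α₀ * β₀ := by
    apply mul_right_cancel₀ hD
    linear_combination (β₁ - β₀) * hcD + (α₁ - α₀) * heD
  have h2 : c * (β₂ - β₀) + e * (α₂ - α₀) = α₂ * β₂ - α₀ * β₀ := by
    apply mul_right_cancel₀ hD
    linear_combination (β₂ - β₀) * hcD + (α₂ - α₀) * heD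
  have r1 : (β₁ - e) * (α₁ - c) = (β₀ - e) * (α₀ - c) := by linear_combination -h1
  have r2 : (β₂ - e) * (α₂ - c) = (β₀ - e) * (α₀ - c) := by linear_combination -h2
  refine ⟨c, e, (β₀ - e) * (α₀ - c), ?_, rfl, r1, r2⟩
  intro h0
  rw [h0] at r1 r2
  rcases mul_eq_zero.mp h0 with a | a <;> rcases mul_eq_zero.mp r1 with b | b <;>
    rcases mul_eq_zero.mp r2 with d | d <;> rw [sub_eq_zero] at a b d
  · exact hβ₁ (a.trans b.symm)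
  · exact hβ₁ (a.trans b.symm)
  · exact hβ₂ (a.trans d.symm)
  · exact hα₃ (b.trans d.symm)
  · exact hβ₃ (b.trans d.symm)
  · exact hα₂ (a.trans d.symm)
  · exact hα₁ (a.trans b.symm)
  · exact hα₁ (a.trans b.symm)

lemma hyp_or [CharZero k] {α₀ α₁ α₂ β₀ β₁ β₂ : k} (hα₁ : α₀ ≠ α₁) (hα₂ : α₀ ≠ α₂) (hα₃ : α₁ ≠ α₂)
    (hβ₁ : β₀ ≠ β₁) (hβ₂ : β₀ ≠ β₂) (hβ₃ : β₁ ≠ β₂) (hs : α₀ + α₁ + α₂ = 0) :
    Hyp α₀ α₁ α₂ β₀ β₁ β₂ ∨ Hyp α₀ α₁ α₂ β₀ β₂ β₁ ∨ Hyp α₀ α₁ α₂ β₂ β₁ β₀ := by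
  by_contra hcon
  push Not at hcon
  obtain ⟨n1, n2, n3⟩ := hcon
  have d1 : (β₁ - β₀) * (α₂ - α₀) - (β₂ - β₀) * (α₁ - α₀) = 0 := by
    by_contra h
    exact n1 (hyp_of_det hα₁ hα₂ hα₃ hβ₁ hβ₂ hβ₃ h)
  have d2 : (β₂ - β₀) * (α₂ - α₀) - (β₁ - β₀) * (α₁ - α₀) = 0 := by
    by_contra h
    exact n2 (hyp_of_det hα₁ hα₂ hα₃ hβ₂ hβ₁ hβ₃.symm h)
  have d3 : (β₁ - β₂) * (α₂ - α₀) - (β₀ - β₂) * (α₁ - α₀) = 0 := by
    by_contra h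
    exact n3 (hyp_of_det hα₁ hα₂ hα₃ hβ₃.symm hβ₂.symm hβ₁.symm h)
  have b1 : β₁ - β₀ ≠ 0 := sub_ne_zero.mpr hβ₁.symm
  have b2 : β₂ - β₀ ≠ 0 := sub_ne_zero.mpr hβ₂.symm
  have b3 : β₁ - β₂ ≠ 0 := sub_ne_zero.mpr hβ₃
  -- `α₀ = 0`
  have e1 : (β₁ - β₀) * (β₂ - β₀) * ((α₂ - α₁) * (α₂ + α₁ - 2 * α₀)) = 0 := by
    linear_combination (β₂ - β₀) * (α₂ - α₀) * d1 + (β₂ - β₀) * (α₁ - α₀) * d2
  have e1' : α₂ + α₁ - 2 * α₀ = 0 := by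
    rcases mul_eq_zero.mp e1 with h | h
    · exact absurd h (mul_ne_zero b1 b2)
    · rcases mul_eq_zero.mp h with h | h
      · exact absurd (sub_eq_zero.mp h).symm hα₃
      · exact h
  have z0 : α₀ = 0 := by
    have h3 : (3 : k) * α₀ = 0 := by linear_combination hs - e1'
    rcases mul_eq_zero.mp h3 with h | h
    · norm_num at h
    · exact h
  -- `α₁ = 0`
  have e2 : (β₁ - β₀) * (β₁ - β₂) * ((α₂ - α₀) * (α₂ + α₀ - 2 * α₁)) = 0 := by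
    have d1' : (β₁ - β₀) * (α₂ - α₁) - (β₂ - β₁) * (α₁ - α₀) = 0 := by linear_combination d1
    have d3' : (β₁ - β₂) * (α₂ - α₁) - (β₀ - β₁) * (α₁ - α₀) = 0 := by linear_combination d3
    linear_combination (β₁ - β₂) * (α₂ - α₁) * d1' - (β₁ - β₂) * (α₁ - α₀) * d3'
  have e2' : α₂ + α₀ - 2 * α₁ = 0 := by
    rcases mul_eq_zero.mp e2 with h | h
    · exact absurd h (mul_ne_zero b1 b3)
    · rcases mul_eq_zero.mp h with h | h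
      · exact absurd (sub_eq_zero.mp h).symm hα₂
      · exact h
  have z1 : α₁ = 0 := by
    have h3 : (3 : k) * α₁ = 0 := by linear_combination hs - e2'
    rcases mul_eq_zero.mp h3 with h | h
    · norm_num at h
    · exact h
  exact hα₁ (z0.trans z1.symm)

/-- the consequence of the relations for the cubics -/
lemma hyp_cubic {α₀ α₁ α₂ β₀ β₁ β₂ a₁ b₁ a₂ b₂ : k} (h : Hyp α₀ α₁ α₂ β₀ β₁ β₂)
    (hf : ∀ x : k, x ^ 3 + a₁ * x + b₁ = (x - α₀) * (x - α₁) * (x - α₂))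
    (hg : ∀ s t : k, s ^ 3 + a₂ * s * t ^ 2 + b₂ * t ^ 3 =
      (s - β₀ * t) * (s - β₁ * t) * (s - β₂ * t)) :
    ∃ c e ρ κ : k, ρ ≠ 0 ∧ κ ≠ 0 ∧ c ^ 3 + a₁ * c + b₁ ≠ 0 ∧
      ∀ x : k, (e * (x - c) + ρ) ^ 3 + a₂ * (e * (x - c) + ρ) * (x - c) ^ 2 +
        b₂ * (x - c) ^ 3 = κ * (x ^ 3 + a₁ * x + b₁) := by
  obtain ⟨c, e, ρ, hρ, h0, h1, h2⟩ := h
  have c0 : α₀ - c ≠ 0 := by intro h; rw [h, mul_zero] at h0; exact hρ h0.symm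
  have c1 : α₁ - c ≠ 0 := by intro h; rw [h, mul_zero] at h1; exact hρ h1.symm
  have c2 : α₂ - c ≠ 0 := by intro h; rw [h, mul_zero] at h2; exact hρ h2.symm
  have hfc : c ^ 3 + a₁ * c + b₁ ≠ 0 := by
    rw [hf]
    refine mul_ne_zero (mul_ne_zero ?_ ?_) ?_
    · rw [← neg_sub]; exact neg_ne_zero.mpr c0
    · rw [← neg_sub]; exact neg_ne_zero.mpr c1
    · rw [← neg_sub]; exact neg_ne_zero.mpr c2
  refine ⟨c, e, ρ, ρ ^ 3 / (c ^ 3 + a₁ * c + b₁), hρ, div_ne_zero (pow_ne_zero 3 hρ) hfc, hfc,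
    fun x => ?_⟩
  rw [hg, div_mul_eq_mul_div, eq_div_iff hfc, hf c, hf x]
  have k0 : (e * (x - c) + ρ - β₀ * (x - c)) * (c - α₀) = ρ * (x - α₀) := by
    linear_combination (x - c) * h0
  have k1 : (e * (x - c) + ρ - β₁ * (x - c)) * (c - α₁) = ρ * (x - α₁) := by
    linear_combination (x - c) * h1
  have k2 : (e * (x - c) + ρ - β₂ * (x - c)) * (c - α₂) = ρ * (x - α₂) := by
    linear_combination (x - c) * h2
  calc (e * (x - c) + ρ - β₀ * (x - c)) * (e * (x - c) + ρ - β₁ * (x - c)) *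
        (e * (x - c) + ρ - β₂ * (x - c)) * ((c - α₀) * (c - α₁) * (c - α₂))
      = ((e * (x - c) + ρ - β₀ * (x - c)) * (c - α₀)) *
          ((e * (x - c) + ρ - β₁ * (x - c)) * (c - α₁)) *
          ((e * (x - c) + ρ - β₂ * (x - c)) * (c - α₂)) := by ring
    _ = ρ ^ 3 * ((x - α₀) * (x - α₁) * (x - α₂)) := by rw [k0, k1, k2]; ring

/-- the roots of a cubic without multiple roots -/
lemma exists_roots [IsAlgClosed k] {a b : k} (hD : 4 * a ^ 3 + 27 * b ^ 2 ≠ 0) :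
    ∃ α₀ α₁ α₂ : k, α₀ ≠ α₁ ∧ α₀ ≠ α₂ ∧ α₁ ≠ α₂ ∧ α₀ + α₁ + α₂ = 0 ∧
      (∀ s t : k, s ^ 3 + a * s * t ^ 2 + b * t ^ 3 = (s - α₀ * t) * (s - α₁ * t) * (s - α₂ * t)) := by
  open Polynomial in
  obtain ⟨α₀, h0⟩ := IsAlgClosed.exists_root (X ^ 3 + C a * X + C b : k[X]) (by
    rw [show (X ^ 3 + C a * X + C b : k[X]).degree = 3 by compute_degree!]
    norm_num)
  open Polynomial in
  obtain ⟨α₁, h1⟩ := IsAlgClosed.exists_root (X ^ 2 + C α₀ * X + C (a + α₀ ^ 2) : k[X]) (by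
    rw [show (X ^ 2 + C α₀ * X + C (a + α₀ ^ 2) : k[X]).degree = 2 by compute_degree!]
    norm_num)
  simp only [Polynomial.IsRoot.def, Polynomial.eval_add, Polynomial.eval_mul, Polynomial.eval_pow,
    Polynomial.eval_X, Polynomial.eval_C] at h0 h1
  set α₂ := -α₀ - α₁ with h2
  have ha : a = α₀ * α₁ + α₀ * α₂ + α₁ * α₂ := by rw [h2]; linear_combination h1
  have hb : b = -(α₀ * α₁ * α₂) := by rw [h2]; linear_combination h0 - α₀ * h1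
  have hdisc : 4 * a ^ 3 + 27 * b ^ 2 = -((α₀ - α₁) * (α₀ - α₂) * (α₁ - α₂)) ^ 2 := by
    rw [ha, hb, h2]; ring
  rw [hdisc] at hD
  refine ⟨α₀, α₁, α₂, ?_, ?_, ?_, by rw [h2]; ring, ?_⟩
  · intro h; apply hD; rw [h]; ring
  · intro h; apply hD; rw [h]; ring
  · intro h; apply hD; rw [h]; ring
  · intro s t
    rw [ha, hb, h2]; ring

/-- **The Möbius transformation.** -/
theorem exists_moebius [IsAlgClosed k] [CharZero k] {a₁ b₁ a₂ b₂ : k}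
    (hD1 : 4 * a₁ ^ 3 + 27 * b₁ ^ 2 ≠ 0) (hD2 : 4 * a₂ ^ 3 + 27 * b₂ ^ 2 ≠ 0) :
    ∃ c e ρ κ : k, ρ ≠ 0 ∧ κ ≠ 0 ∧ c ^ 3 + a₁ * c + b₁ ≠ 0 ∧
      ∀ x : k, (e * (x - c) + ρ) ^ 3 + a₂ * (e * (x - c) + ρ) * (x - c) ^ 2 +
        b₂ * (x - c) ^ 3 = κ * (x ^ 3 + a₁ * x + b₁) := by
  obtain ⟨α₀, α₁, α₂, p1, p2, p3, ps, hf⟩ := exists_roots hD1
  obtain ⟨β₀, β₁, β₂, q1, q2, q3, -, hg⟩ := exists_roots hD2
  have hf' : ∀ x : k, x ^ 3 + a₁ * x + b₁ = (x - α₀) * (x - α₁) * (x - α₂) := by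
    intro x
    have := hf x 1
    simpa using this
  rcases hyp_or p1 p2 p3 q1 q2 q3 ps with h | h | h
  · exact hyp_cubic h hf' hg
  · exact hyp_cubic h hf' (fun s t => by rw [hg]; ring)
  · exact hyp_cubic h hf' (fun s t => by rw [hg]; ring)

end Pool.Agent.H68K
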