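import Mathlib
import Pool.Agent.H68K.Cyc
import Pool.Agent.H68K.Mob
import Pool.Agent.H68K.Mai
import Pool.Agent.H68K.Emb

/-!
# Points outside a finitely generated group
-/

set_option autoImplicit false
set_option linter.unusedSectionVars false

open WeierstrassCurve Pool.Agent.TH954 Pool.Agent.Y718 Pool.Agent.TH942

namespace Pool.Agent.H68K

section arith

variable {p : ℕ} [hp : Fact p.Prime] {K k : Type} [Field K] [CharZero K] [Algebra K ℚ_[p]]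
  [Field k] [CharZero k] [IsAlgClosed k] [Algebra K k]

open scoped Classical in
/-- points with coordinates in `K` -/
lemma mem_range {a b : K} (hD : 4 * a ^ 3 + 27 * b ^ 2 ≠ 0)
    (Γ : Set ((sw a b).baseChange k).toAffine.Point)
    (hΓ : ∀ (u z : k) (n : ((sw a b).baseChange k).toAffine.Nonsingular u z),
      Affine.Point.some u z n ∈ Γ → ∃ u' z' : K, algebraMap K k u' = u ∧ algebraMap K k z' = z) :
    AddSubgroup.closure Γ ≤ (pm (sw a b) (Algebra.ofId K k)).range := by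
  rw [AddSubgroup.closure_le]
  intro T hT
  match T, hT with
  | .zero, _ => exact zero_mem _
  | .some u z n, hT =>
    obtain ⟨u', z', rfl, rfl⟩ := hΓ u z n hT
    have h1 := eqn_base n
    have h2 : z' ^ 2 = u' ^ 3 + a * u' + b := by
      apply (algebraMap K k).injective
      simpa only [map_add, map_mul, map_pow] using h1
    have n' : ((sw a b).baseChange K).toAffine.Nonsingular u' z' := ns_base hD h2
    obtain ⟨g, hg⟩ := pm_some (E := sw a b) (Algebra.ofId K k) n'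
    exact ⟨Affine.Point.some u' z' n', hg⟩

open scoped Classical in
theorem arith_gen [Algebra.IsAlgebraic K k] (hp64 : 64 < p) {a₁ b₁ a₂ b₂ c e ρ κ α₀ α₁ : K}
    (ha₁ : ‖algebraMap K ℚ_[p] a₁‖ ≤ 1) (hb₁ : ‖algebraMap K ℚ_[p] b₁‖ ≤ 1)
    (ha₂ : ‖algebraMap K ℚ_[p] a₂‖ ≤ 1) (hb₂ : ‖algebraMap K ℚ_[p] b₂‖ ≤ 1)
    (hc : ‖algebraMap K ℚ_[p] c‖ ≤ 1) (he : ‖algebraMap K ℚ_[p] e‖ ≤ 1)
    (hρ : ‖algebraMap K ℚ_[p] ρ‖ ≤ 1) (hρ0 : ρ ≠ 0)
    (hD1 : ‖algebraMap K ℚ_[p] (4 * a₁ ^ 3 + 27 * b₁ ^ 2)‖ = 1)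
    (hD2 : 4 * a₂ ^ 3 + 27 * b₂ ^ 2 ≠ 0)
    (hκ : ‖algebraMap K ℚ_[p] κ‖ = 1)
    (hfc : ‖algebraMap K ℚ_[p] (c ^ 3 + a₁ * c + b₁)‖ = 1)
    (hid : ∀ x : k, (algebraMap K k e * (x - algebraMap K k c) + algebraMap K k ρ) ^ 3 +
      algebraMap K k a₂ * (algebraMap K k e * (x - algebraMap K k c) + algebraMap K k ρ) *
        (x - algebraMap K k c) ^ 2 + algebraMap K k b₂ * (x - algebraMap K k c) ^ 3 =
      algebraMap K k κ * (x ^ 3 + algebraMap K k a₁ * x + algebraMap K k b₁))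
    (hα : α₀ ≠ α₁) (h0 : α₀ ^ 3 + a₁ * α₀ + b₁ = 0) (h1 : α₁ ^ 3 + a₁ * α₁ + b₁ = 0)
    {A₁ B₁ A₂ B₂ : k} (eA₁ : algebraMap K k a₁ = A₁) (eB₁ : algebraMap K k b₁ = B₁)
    (eA₂ : algebraMap K k a₂ = A₂) (eB₂ : algebraMap K k b₂ = B₂) {t s : K}
    (n₀ : (sw A₁ B₁).toAffine.Nonsingular (algebraMap K k t) (algebraMap K k s))
    (Γ : Set (sw A₂ B₂).toAffine.Point)
    (hΓ : ∀ (u z : k) (n : (sw A₂ B₂).toAffine.Nonsingular u z),
      Affine.Point.some u z n ∈ Γ → ∃ u' z' : K, algebraMap K k u' = u ∧ algebraMap K k z' = z) :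
    ∃ (x y u z : k) (n₁ : (sw A₁ B₁).toAffine.Nonsingular x y)
      (n₂ : (sw A₂ B₂).toAffine.Nonsingular u z) (M M' : ℕ), M' ≠ 0 ∧
      M • Affine.Point.some x y n₁ =
        M' • Affine.Point.some (algebraMap K k t) (algebraMap K k s) n₀ ∧
      x ≠ algebraMap K k c ∧
      u * (x - algebraMap K k c) = algebraMap K k e * (x - algebraMap K k c) + algebraMap K k ρ ∧
      ∀ N : ℕ, N ≠ 0 → N • Affine.Point.some u z n₂ ∉ AddSubgroup.closure Γ := by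
  have hW1 : (sw a₁ b₁).baseChange k = sw A₁ B₁ := by rw [base_sw, eA₁, eB₁]
  have hW2 : (sw a₂ b₂).baseChange k = sw A₂ B₂ := by rw [base_sw, eA₂, eB₂]
  revert n₀ Γ hΓ
  generalize sw A₁ B₁ = W₁ at hW1
  generalize sw A₂ B₂ = W₂ at hW2
  subst hW1 hW2
  intro n₀ Γ hΓ
  have h2 : s ^ 2 = t ^ 3 + a₁ * t + b₁ := by
    have h3 := eqn_base n₀
    apply (algebraMap K k).injective
    simpa only [map_add, map_mul, map_pow] using h3
  have hD10 : 4 * a₁ ^ 3 + 27 * b₁ ^ 2 ≠ 0 := by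
    intro h; rw [h, map_zero, norm_zero] at hD1; norm_num at hD1
  have n' : ((sw a₁ b₁).baseChange K).toAffine.Nonsingular t s := ns_base hD10 h2
  obtain ⟨g, hg⟩ := pm_some (E := sw a₁ b₁) (Algebra.ofId K k) n'
  obtain ⟨x, y, u, z, n₁, n₂, M, M', r1, r2, r3, r4, r5⟩ := main_arith hp64 ha₁ hb₁ ha₂ hb₂ hc he hρ
    hρ0 hD1 hD2 hκ hfc hid hα h0 h1 (Affine.Point.some t s n')
  rw [hg] at r2
  refine ⟨x, y, u, z, n₁, n₂, M, M', r1, r2, r3, r4, ?_⟩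
  intro N hN hmem
  obtain ⟨T, hT⟩ := mem_range hD2 Γ hΓ hmem
  exact r5 N hN T hT.symm

end arith

open scoped Classical in
/-- the main theorem: points in the class outside a finitely generated group -/
theorem exists_outside {k : Type} [Field k] [CharZero k] [IsAlgClosed k] [Algebra.IsAlgebraic ℚ k]
    (i : k →+* ℂ) {a₁ b₁ a₂ b₂ : k} (hD1 : 4 * a₁ ^ 3 + 27 * b₁ ^ 2 ≠ 0)
    (hD2 : 4 * a₂ ^ 3 + 27 * b₂ ^ 2 ≠ 0) {t s : k} (hts : s ^ 2 = t ^ 3 + a₁ * t + b₁)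
    (Γ : Finset (sw a₂ b₂).toAffine.Point) :
    ∃ (u z : k) (n : (sw a₂ b₂).toAffine.Nonsingular u z),
      (∃ M : ℕ, M ≠ 0 ∧ M • dl t u (s * z) ∈ Rat a₁ b₁ a₂ b₂) ∧
      ∀ N : ℕ, N ≠ 0 → N • Affine.Point.some u z n ∉
        AddSubgroup.closure (Γ : Set (sw a₂ b₂).toAffine.Point) := by
  obtain ⟨c, e, ρ, κ, hρ, hκ, hfc, hid⟩ := exists_moebius hD1 hD2
  obtain ⟨α₀, α₁, α₂, p1, -, -, -, hf⟩ := exists_roots hD1
  have h0 : α₀ ^ 3 + a₁ * α₀ + b₁ = 0 := by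
    have := hf α₀ 1
    simpa using this
  have h1 : α₁ ^ 3 + a₁ * α₁ + b₁ = 0 := by
    have := hf α₁ 1
    simpa using this
  let xc : (sw a₂ b₂).toAffine.Point → k := fun T => match T with
    | .zero => 0
    | .some u _ _ => u
  let yc : (sw a₂ b₂).toAffine.Point → k := fun T => match T with
    | .zero => 0
    | .some _ z _ => z
  let S : Finset k := {a₁, b₁, a₂, b₂, c, e, ρ, κ, c ^ 3 + a₁ * c + b₁,
    4 * a₁ ^ 3 + 27 * b₁ ^ 2, α₀, α₁, t, s} ∪ Γ.image xc ∪ Γ.image yc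
  have hex := exists_padic i S 64
  have hmem0 : ∀ r ∈ S, r ∈ Subfield.closure (S : Set k) := fun r hr => Subfield.subset_closure hr
  revert hex hmem0
  generalize Subfield.closure (S : Set k) = K
  intro hex hmem
  obtain ⟨p, hp, hp64, σ, hσ⟩ := hex
  let alg : Algebra K ℚ_[p] := σ.toAlgebra
  have : Algebra.IsAlgebraic K k := Algebra.IsAlgebraic.tower_top (K := ℚ) K
  have hle : ∀ (r : k) (hr : r ∈ S), ‖algebraMap K ℚ_[p] ⟨r, hmem r hr⟩‖ ≤ 1 := by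
    intro r hr
    by_cases h : r = 0
    · subst h
      have : (⟨0, hmem 0 hr⟩ : K) = 0 := rfl
      rw [this, map_zero, norm_zero]
      exact zero_le_one
    · exact (hσ ⟨r, hmem r hr⟩ hr h).le
  have heq : ∀ (r : K) (_ : (r : k) ∈ S), (r : k) ≠ 0 → ‖algebraMap K ℚ_[p] r‖ = 1 :=
    fun r hr h => hσ r hr h
  have m1 : a₁ ∈ S := by simp [S]
  have m2 : b₁ ∈ S := by simp [S]
  have m3 : a₂ ∈ S := by simp [S]
  have m4 : b₂ ∈ S := by simp [S]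
  have m5 : c ∈ S := by simp [S]
  have m6 : e ∈ S := by simp [S]
  have m7 : ρ ∈ S := by simp [S]
  have m8 : κ ∈ S := by simp [S]
  have m9 : c ^ 3 + a₁ * c + b₁ ∈ S := by simp [S]
  have m10 : 4 * a₁ ^ 3 + 27 * b₁ ^ 2 ∈ S := by simp [S]
  have m11 : α₀ ∈ S := by simp [S]
  have m12 : α₁ ∈ S := by simp [S]
  have m13 : t ∈ S := by simp [S]
  have m14 : s ∈ S := by simp [S]
  have n₀ : (sw a₁ b₁).toAffine.Nonsingular t s := sw_nonsing hD1 hts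
  obtain ⟨x, y, u, z, n₁, n₂, M, M', r1, r2, r3, r4, r5⟩ := arith_gen (p := p) (K := K) (k := k) hp64
    (a₁ := ⟨a₁, hmem _ m1⟩) (b₁ := ⟨b₁, hmem _ m2⟩) (a₂ := ⟨a₂, hmem _ m3⟩) (b₂ := ⟨b₂, hmem _ m4⟩)
    (c := ⟨c, hmem _ m5⟩) (e := ⟨e, hmem _ m6⟩) (ρ := ⟨ρ, hmem _ m7⟩) (κ := ⟨κ, hmem _ m8⟩)
    (α₀ := ⟨α₀, hmem _ m11⟩) (α₁ := ⟨α₁, hmem _ m12⟩)
    (hle _ m1) (hle _ m2) (hle _ m3) (hle _ m4) (hle _ m5) (hle _ m6) (hle _ m7)
    (fun h => hρ (congrArg Subtype.val h)) (heq _ m10 hD1)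
    (fun h => hD2 (congrArg Subtype.val h)) (heq _ m8 hκ) (heq _ m9 hfc) hid
    (fun h => p1 (congrArg Subtype.val h)) (Subtype.ext h0) (Subtype.ext h1)
    (A₁ := a₁) (B₁ := b₁) (A₂ := a₂) (B₂ := b₂) rfl rfl rfl rfl
    (t := ⟨t, hmem _ m13⟩) (s := ⟨s, hmem _ m14⟩) n₀ (Γ : Set (sw a₂ b₂).toAffine.Point) (by
      intro u z n hn
      refine ⟨⟨u, hmem _ ?_⟩, ⟨z, hmem _ ?_⟩, rfl, rfl⟩
      · apply Finset.mem_union_left
        apply Finset.mem_union_right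
        exact Finset.mem_image.mpr ⟨_, hn, rfl⟩
      · apply Finset.mem_union_right
        exact Finset.mem_image.mpr ⟨_, hn, rfl⟩)
  have hy : y ^ 2 = x ^ 3 + a₁ * x + b₁ := (short_sw a₁ b₁).eqn n₁
  have hz : z ^ 2 = u ^ 3 + a₂ * u + b₂ := (short_sw a₂ b₂).eqn n₂
  refine ⟨u, z, n₂, ⟨M', r1, ?_⟩, r5⟩
  have hr : dl x u (y * z) ∈ Rat a₁ b₁ a₂ b₂ := mem_of_moebius hκ hid r3 hy hz r4
  have hM : (M : ℤ) • Affine.Point.some x y n₁ = (M' : ℤ) • Affine.Point.some t s n₀ := by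
    rw [natCast_zsmul, natCast_zsmul]
    exact r2
  have h := transfer (by norm_num) hz hM hr
  rwa [natCast_zsmul] at h

end Pool.Agent.H68K
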